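import Pool.Agent.TH497.PW.D6.Env
import Pool.Agent.TH497.PW.D6.Table

set_option autoImplicit false

namespace Pool.Agent.TH497.PW.D6

open Pool.Agent.TH497.PW

theorem c512 : chk dflt env tb 6 t512 0x3c60f1183c060f6183cc60f1ffc7ff1ffc7ff1ffc7ff1ffc7ff1ffc7ff1ffc7ff1ffc7ff1ffc7ff1ffc7ff1ffc7ff1ffc7ff1ffc7ff1ffc7ff1ffc7ff1ffc7ff1ffc7ff1ffc7ff1ffc7ff1ffc7ff1ffc7ff1ffc7ff1ffc7ff1ffc7ff1ffc7ff1ffc7ff1ffc7ff1ffc7ff1ffcd9f367cd9f367cd9f367cd9f367cd9f1ffc7ff1ffc7ff1ffc7ff1ffc7ff1ffcd9f367cd9f367cd9f367c7ff1ffc7ff1ffc7ff1ffc7ff1ffc7ff1ffc7ff1ffc7ff1ffc7ff1ffc7ff1ffc7ff1ffe48d9f92367e48d9f92367e48d9f92367e48d9f92367e48d9f92367e48d9f92367e48d9f92367e48d9f1ffc7ff1ffc7ff1ffc7ff1ffc7ff1ffcd9f367cd9f367cd9f367e48d9f92367e48d9f92367e48d9f92367e00fa803e9f7f1ffc7ff1ffc7ff1ffc7ffe1367f84d9fe1367f84d9fe1367c7ff1ffc7ff1ffc7ffe1367f84d9fe1367f84d9f1ffc7ff1ffc7ff1fff84d9fe1367f84d9fe1367c7ff1ffc7ff1fff84d9fe1367c7ff1ffc7ff1ffc7ffe1367f84d9fe1367f84d9f367cd9f367cd9f803e00f1ffc7ff1ffc7ffe1367f84d9f367cd9fb37dfc7ff1ffc7ff1ffc7ffe1367f84d9fe1367f84d9f1ffc7ff1ffc7ffe1367f84d9f92367e48d9f92367e48d9f803e00f92367e48d9fc67dfc7ff1ffc7ff1fff84d9fe1367cd9f367f41f7f92367e48d9fe17dfdf7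 = true := by decide +kernel

theorem c513 : chk dflt env tb 6 t513 0xf315fdc457f315fdc457fc01eff007bfc01eff007bfc01eff007afc01ebf007afc01ebf007afb547f1ca3fb547ed51fe535f3f1ca1fe535f3f94d7cfc428fe70951f9c2547e70951fc4287facd7cfeb35f3facd7cfe13d7f484f5fb737f84f4fed213d3df6fb547ed51fb28fed51fe535f3f94d7cfcb287f94d7cf927cbe49f2f927cbe49f0f927c3e49f0fe13d7faccf5fb737f84f4feb33d3df6feb17b7e49fbfeb17b3e70951fc28fe70951f9c2547facd7cfc287facd7cfeb35f3f484f5fe413d7edcdfed213d3f904f4f7dbdf2f7cbdf2f7c3df0f7c3f0dedf7effb0decfe413d7faccf5fb737f904f4feb33d3df6fd717b7e49fbfed417b3f8dedf7eff8decfb11ebec47afb11ebec47afb11ebf0079fc01e7f0079fc01e7f0079fdc65f3f1c4a1fdc65f3f7197cf537e3f1c09df537e3d4df8fc41287f5d97cfd765f3f5d97cfc40277d4df8f537e3d4df8fc63d3f61d8f4fa7dbf94cf3fecb33cff7197cfdc65f3ec4a1fdc65f3d4df8f537e3ec49df537e3e4a9f0f92a7c3e4a9f0f807e01fc63d3f5d8f4fa7dbf94cf3feb33cff2d9ecfd267aff5d97cfc1287f5d97cfd765f3d4df8fc0277d4df8f537e3f61d8f4fc463d3e9f6fecb33cff948cf3fa7c3e9f0fa7c3e01f807e719ecfe37aff118f4fd763d3e9f6fe5233cffaccf3fd267b3f499ebfe967b3f8deb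 = true := by decide +kernel

theorem c514 : chk dflt env tb 6 t514 0xf57163d058f92163c58f1ffc7ff1ffc7ff1fff407efd01fbf407efd01fbf407ef367dc81f367cd9f20607f1ca2f20607c8181f4207e48d9f92367e48d9fc428be4181f90607e4181f344bd5c112f7ffc8106f9041bdf7f367cd9f2207cd9f20607c8181fcb28bc8181f7a7de9f7a7e49f1f927c7e49f1f344be48112f7ffc8106f95041bdf7fd7a3e49fefb7bfe48d9f207e48d9f92367e4181fc28be4181f90607d5c112f044bdfff9041bd50106f7dfe49e9f927a7e49e9f7c7df1f7c7fa49e8f7fbe709eff044be48112f7ffd50106f95041bdf7fb7a3e49fefd47bfe709e8f7fbf95deffb31fbecc7efb31fbecc7efb31fbf407dfd01f7f407dfd01f7f407dfc2a607f1c4a2fc2a607f0a981f537e7f5c0a4f537e7d4df9fc4128be6e981f9ba607e6e981fb3293d4df9f537e7d4df9fc2a41be6e906fa7dfc8105f90417f0a981fc2a607f2c4a2fc2a607d4df9f537e7f480a4f537e7e4a9f1f92a7c7e4a9f1f80be02fc2a41be56e906fa7dfc8105f950417ec1effb7bbe6e981fc128be6e981f9ba607d4df9fd0293d4df9f537e7e6e906fdc4a41be9f7f90417d50105fa7c7e9f1fa7c7e02f80bd5cdeff9c27bbf712906f95ba41be9f7f540417e54105f37bfedeef9237bfe709ee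 = true := by decide +kernel

end Pool.Agent.TH497.PW.D6
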