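import Pool.Agent.TH497.PW.Main
import Pool.Agent.TH497.PW.D6.C0
import Pool.Agent.TH497.PW.D6.C1
import Pool.Agent.TH497.PW.D6.C2
import Pool.Agent.TH497.PW.D6.C3
import Pool.Agent.TH497.PW.D6.C4
import Pool.Agent.TH497.PW.D6.C5
import Pool.Agent.TH497.PW.D6.C6
import Pool.Agent.TH497.PW.D6.C7
import Pool.Agent.TH497.PW.D6.C8
import Pool.Agent.TH497.PW.D6.C9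
import Pool.Agent.TH497.PW.D6.C10
import Pool.Agent.TH497.PW.D6.C11
import Pool.Agent.TH497.PW.D6.C12
import Pool.Agent.TH497.PW.D6.C13
import Pool.Agent.TH497.PW.D6.C14
import Pool.Agent.TH497.PW.D6.C15
import Pool.Agent.TH497.PW.D6.C16

set_option autoImplicit false

namespace Pool.Agent.TH497.PW.D6

open Pool.Agent.TH497.PW

def Q (s : St) : Prop := ∃ c, chk dflt env tb 6 s c = true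

theorem a9_0 : AllT Q n9_0 := ⟨⟨_, c0⟩, ⟨_, c512⟩⟩
theorem a9_1 : AllT Q n9_1 := ⟨⟨_, c1⟩, ⟨_, c513⟩⟩
theorem a9_2 : AllT Q n9_2 := ⟨⟨_, c2⟩, ⟨_, c514⟩⟩
theorem a9_3 : AllT Q n9_3 := ⟨⟨_, c3⟩, ⟨_, c0⟩⟩
theorem a9_4 : AllT Q n9_4 := ⟨⟨_, c4⟩, ⟨_, c0⟩⟩
theorem a9_5 : AllT Q n9_5 := ⟨⟨_, c5⟩, ⟨_, c0⟩⟩
theorem a9_6 : AllT Q n9_6 := ⟨⟨_, c6⟩, ⟨_, c0⟩⟩
theorem a9_7 : AllT Q n9_7 := ⟨⟨_, c7⟩, ⟨_, c0⟩⟩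
theorem a9_8 : AllT Q n9_8 := ⟨⟨_, c8⟩, ⟨_, c0⟩⟩
theorem a9_9 : AllT Q n9_9 := ⟨⟨_, c9⟩, ⟨_, c0⟩⟩
theorem a9_10 : AllT Q n9_10 := ⟨⟨_, c10⟩, ⟨_, c0⟩⟩
theorem a9_11 : AllT Q n9_11 := ⟨⟨_, c11⟩, ⟨_, c0⟩⟩
theorem a9_12 : AllT Q n9_12 := ⟨⟨_, c12⟩, ⟨_, c0⟩⟩
theorem a9_13 : AllT Q n9_13 := ⟨⟨_, c13⟩, ⟨_, c0⟩⟩
theorem a9_14 : AllT Q n9_14 := ⟨⟨_, c14⟩, ⟨_, c0⟩⟩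
theorem a9_15 : AllT Q n9_15 := ⟨⟨_, c15⟩, ⟨_, c0⟩⟩
theorem a9_16 : AllT Q n9_16 := ⟨⟨_, c16⟩, ⟨_, c0⟩⟩
theorem a9_17 : AllT Q n9_17 := ⟨⟨_, c17⟩, ⟨_, c0⟩⟩
theorem a9_18 : AllT Q n9_18 := ⟨⟨_, c18⟩, ⟨_, c0⟩⟩
theorem a9_19 : AllT Q n9_19 := ⟨⟨_, c19⟩, ⟨_, c0⟩⟩
theorem a9_20 : AllT Q n9_20 := ⟨⟨_, c20⟩, ⟨_, c0⟩⟩
theorem a9_21 : AllT Q n9_21 := ⟨⟨_, c21⟩, ⟨_, c0⟩⟩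
theorem a9_22 : AllT Q n9_22 := ⟨⟨_, c22⟩, ⟨_, c0⟩⟩
theorem a9_23 : AllT Q n9_23 := ⟨⟨_, c23⟩, ⟨_, c0⟩⟩
theorem a9_24 : AllT Q n9_24 := ⟨⟨_, c24⟩, ⟨_, c0⟩⟩
theorem a9_25 : AllT Q n9_25 := ⟨⟨_, c25⟩, ⟨_, c0⟩⟩
theorem a9_26 : AllT Q n9_26 := ⟨⟨_, c26⟩, ⟨_, c0⟩⟩
theorem a9_27 : AllT Q n9_27 := ⟨⟨_, c27⟩, ⟨_, c0⟩⟩
theorem a9_28 : AllT Q n9_28 := ⟨⟨_, c28⟩, ⟨_, c0⟩⟩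
theorem a9_29 : AllT Q n9_29 := ⟨⟨_, c29⟩, ⟨_, c0⟩⟩
theorem a9_30 : AllT Q n9_30 := ⟨⟨_, c30⟩, ⟨_, c0⟩⟩
theorem a9_31 : AllT Q n9_31 := ⟨⟨_, c31⟩, ⟨_, c0⟩⟩
theorem a9_32 : AllT Q n9_32 := ⟨⟨_, c32⟩, ⟨_, c0⟩⟩
theorem a9_33 : AllT Q n9_33 := ⟨⟨_, c33⟩, ⟨_, c0⟩⟩
theorem a9_34 : AllT Q n9_34 := ⟨⟨_, c34⟩, ⟨_, c0⟩⟩
theorem a9_35 : AllT Q n9_35 := ⟨⟨_, c35⟩, ⟨_, c0⟩⟩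
theorem a9_36 : AllT Q n9_36 := ⟨⟨_, c36⟩, ⟨_, c0⟩⟩
theorem a9_37 : AllT Q n9_37 := ⟨⟨_, c37⟩, ⟨_, c0⟩⟩
theorem a9_38 : AllT Q n9_38 := ⟨⟨_, c38⟩, ⟨_, c0⟩⟩
theorem a9_39 : AllT Q n9_39 := ⟨⟨_, c39⟩, ⟨_, c0⟩⟩
theorem a9_40 : AllT Q n9_40 := ⟨⟨_, c40⟩, ⟨_, c0⟩⟩
theorem a9_41 : AllT Q n9_41 := ⟨⟨_, c41⟩, ⟨_, c0⟩⟩
theorem a9_42 : AllT Q n9_42 := ⟨⟨_, c42⟩, ⟨_, c0⟩⟩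
theorem a9_43 : AllT Q n9_43 := ⟨⟨_, c43⟩, ⟨_, c0⟩⟩
theorem a9_44 : AllT Q n9_44 := ⟨⟨_, c44⟩, ⟨_, c0⟩⟩
theorem a9_45 : AllT Q n9_45 := ⟨⟨_, c45⟩, ⟨_, c0⟩⟩
theorem a9_46 : AllT Q n9_46 := ⟨⟨_, c46⟩, ⟨_, c0⟩⟩
theorem a9_47 : AllT Q n9_47 := ⟨⟨_, c47⟩, ⟨_, c0⟩⟩
theorem a9_48 : AllT Q n9_48 := ⟨⟨_, c48⟩, ⟨_, c0⟩⟩
theorem a9_49 : AllT Q n9_49 := ⟨⟨_, c49⟩, ⟨_, c0⟩⟩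
theorem a9_50 : AllT Q n9_50 := ⟨⟨_, c50⟩, ⟨_, c0⟩⟩
theorem a9_51 : AllT Q n9_51 := ⟨⟨_, c51⟩, ⟨_, c0⟩⟩
theorem a9_52 : AllT Q n9_52 := ⟨⟨_, c52⟩, ⟨_, c0⟩⟩
theorem a9_53 : AllT Q n9_53 := ⟨⟨_, c53⟩, ⟨_, c0⟩⟩
theorem a9_54 : AllT Q n9_54 := ⟨⟨_, c54⟩, ⟨_, c0⟩⟩
theorem a9_55 : AllT Q n9_55 := ⟨⟨_, c55⟩, ⟨_, c0⟩⟩
theorem a9_56 : AllT Q n9_56 := ⟨⟨_, c56⟩, ⟨_, c0⟩⟩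
theorem a9_57 : AllT Q n9_57 := ⟨⟨_, c57⟩, ⟨_, c0⟩⟩
theorem a9_58 : AllT Q n9_58 := ⟨⟨_, c58⟩, ⟨_, c0⟩⟩
theorem a9_59 : AllT Q n9_59 := ⟨⟨_, c59⟩, ⟨_, c0⟩⟩
theorem a9_60 : AllT Q n9_60 := ⟨⟨_, c60⟩, ⟨_, c0⟩⟩
theorem a9_61 : AllT Q n9_61 := ⟨⟨_, c61⟩, ⟨_, c0⟩⟩
theorem a9_62 : AllT Q n9_62 := ⟨⟨_, c62⟩, ⟨_, c0⟩⟩
theorem a9_63 : AllT Q n9_63 := ⟨⟨_, c63⟩, ⟨_, c0⟩⟩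
theorem a9_64 : AllT Q n9_64 := ⟨⟨_, c64⟩, ⟨_, c0⟩⟩
theorem a9_65 : AllT Q n9_65 := ⟨⟨_, c65⟩, ⟨_, c0⟩⟩
theorem a9_66 : AllT Q n9_66 := ⟨⟨_, c66⟩, ⟨_, c0⟩⟩
theorem a9_67 : AllT Q n9_67 := ⟨⟨_, c67⟩, ⟨_, c0⟩⟩
theorem a9_68 : AllT Q n9_68 := ⟨⟨_, c68⟩, ⟨_, c0⟩⟩
theorem a9_69 : AllT Q n9_69 := ⟨⟨_, c69⟩, ⟨_, c0⟩⟩
theorem a9_70 : AllT Q n9_70 := ⟨⟨_, c70⟩, ⟨_, c0⟩⟩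
theorem a9_71 : AllT Q n9_71 := ⟨⟨_, c71⟩, ⟨_, c0⟩⟩
theorem a9_72 : AllT Q n9_72 := ⟨⟨_, c72⟩, ⟨_, c0⟩⟩
theorem a9_73 : AllT Q n9_73 := ⟨⟨_, c73⟩, ⟨_, c0⟩⟩
theorem a9_74 : AllT Q n9_74 := ⟨⟨_, c74⟩, ⟨_, c0⟩⟩
theorem a9_75 : AllT Q n9_75 := ⟨⟨_, c75⟩, ⟨_, c0⟩⟩
theorem a9_76 : AllT Q n9_76 := ⟨⟨_, c76⟩, ⟨_, c0⟩⟩
theorem a9_77 : AllT Q n9_77 := ⟨⟨_, c77⟩, ⟨_, c0⟩⟩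
theorem a9_78 : AllT Q n9_78 := ⟨⟨_, c78⟩, ⟨_, c0⟩⟩
theorem a9_79 : AllT Q n9_79 := ⟨⟨_, c79⟩, ⟨_, c0⟩⟩
theorem a9_80 : AllT Q n9_80 := ⟨⟨_, c80⟩, ⟨_, c0⟩⟩
theorem a9_81 : AllT Q n9_81 := ⟨⟨_, c81⟩, ⟨_, c0⟩⟩
theorem a9_82 : AllT Q n9_82 := ⟨⟨_, c82⟩, ⟨_, c0⟩⟩
theorem a9_83 : AllT Q n9_83 := ⟨⟨_, c83⟩, ⟨_, c0⟩⟩
theorem a9_84 : AllT Q n9_84 := ⟨⟨_, c84⟩, ⟨_, c0⟩⟩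
theorem a9_85 : AllT Q n9_85 := ⟨⟨_, c85⟩, ⟨_, c0⟩⟩
theorem a9_86 : AllT Q n9_86 := ⟨⟨_, c86⟩, ⟨_, c0⟩⟩
theorem a9_87 : AllT Q n9_87 := ⟨⟨_, c87⟩, ⟨_, c0⟩⟩
theorem a9_88 : AllT Q n9_88 := ⟨⟨_, c88⟩, ⟨_, c0⟩⟩
theorem a9_89 : AllT Q n9_89 := ⟨⟨_, c89⟩, ⟨_, c0⟩⟩
theorem a9_90 : AllT Q n9_90 := ⟨⟨_, c90⟩, ⟨_, c0⟩⟩
theorem a9_91 : AllT Q n9_91 := ⟨⟨_, c91⟩, ⟨_, c0⟩⟩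
theorem a9_92 : AllT Q n9_92 := ⟨⟨_, c92⟩, ⟨_, c0⟩⟩
theorem a9_93 : AllT Q n9_93 := ⟨⟨_, c93⟩, ⟨_, c0⟩⟩
theorem a9_94 : AllT Q n9_94 := ⟨⟨_, c94⟩, ⟨_, c0⟩⟩
theorem a9_95 : AllT Q n9_95 := ⟨⟨_, c95⟩, ⟨_, c0⟩⟩
theorem a9_96 : AllT Q n9_96 := ⟨⟨_, c96⟩, ⟨_, c0⟩⟩
theorem a9_97 : AllT Q n9_97 := ⟨⟨_, c97⟩, ⟨_, c0⟩⟩
theorem a9_98 : AllT Q n9_98 := ⟨⟨_, c98⟩, ⟨_, c0⟩⟩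
theorem a9_99 : AllT Q n9_99 := ⟨⟨_, c99⟩, ⟨_, c0⟩⟩
theorem a9_100 : AllT Q n9_100 := ⟨⟨_, c100⟩, ⟨_, c0⟩⟩
theorem a9_101 : AllT Q n9_101 := ⟨⟨_, c101⟩, ⟨_, c0⟩⟩
theorem a9_102 : AllT Q n9_102 := ⟨⟨_, c102⟩, ⟨_, c0⟩⟩
theorem a9_103 : AllT Q n9_103 := ⟨⟨_, c103⟩, ⟨_, c0⟩⟩
theorem a9_104 : AllT Q n9_104 := ⟨⟨_, c104⟩, ⟨_, c0⟩⟩
theorem a9_105 : AllT Q n9_105 := ⟨⟨_, c105⟩, ⟨_, c0⟩⟩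
theorem a9_106 : AllT Q n9_106 := ⟨⟨_, c106⟩, ⟨_, c0⟩⟩
theorem a9_107 : AllT Q n9_107 := ⟨⟨_, c107⟩, ⟨_, c0⟩⟩
theorem a9_108 : AllT Q n9_108 := ⟨⟨_, c108⟩, ⟨_, c0⟩⟩
theorem a9_109 : AllT Q n9_109 := ⟨⟨_, c109⟩, ⟨_, c0⟩⟩
theorem a9_110 : AllT Q n9_110 := ⟨⟨_, c110⟩, ⟨_, c0⟩⟩
theorem a9_111 : AllT Q n9_111 := ⟨⟨_, c111⟩, ⟨_, c0⟩⟩
theorem a9_112 : AllT Q n9_112 := ⟨⟨_, c112⟩, ⟨_, c0⟩⟩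
theorem a9_113 : AllT Q n9_113 := ⟨⟨_, c113⟩, ⟨_, c0⟩⟩
theorem a9_114 : AllT Q n9_114 := ⟨⟨_, c114⟩, ⟨_, c0⟩⟩
theorem a9_115 : AllT Q n9_115 := ⟨⟨_, c115⟩, ⟨_, c0⟩⟩
theorem a9_116 : AllT Q n9_116 := ⟨⟨_, c116⟩, ⟨_, c0⟩⟩
theorem a9_117 : AllT Q n9_117 := ⟨⟨_, c117⟩, ⟨_, c0⟩⟩
theorem a9_118 : AllT Q n9_118 := ⟨⟨_, c118⟩, ⟨_, c0⟩⟩
theorem a9_119 : AllT Q n9_119 := ⟨⟨_, c119⟩, ⟨_, c0⟩⟩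
theorem a9_120 : AllT Q n9_120 := ⟨⟨_, c120⟩, ⟨_, c0⟩⟩
theorem a9_121 : AllT Q n9_121 := ⟨⟨_, c121⟩, ⟨_, c0⟩⟩
theorem a9_122 : AllT Q n9_122 := ⟨⟨_, c122⟩, ⟨_, c0⟩⟩
theorem a9_123 : AllT Q n9_123 := ⟨⟨_, c123⟩, ⟨_, c0⟩⟩
theorem a9_124 : AllT Q n9_124 := ⟨⟨_, c124⟩, ⟨_, c0⟩⟩
theorem a9_125 : AllT Q n9_125 := ⟨⟨_, c125⟩, ⟨_, c0⟩⟩
theorem a9_126 : AllT Q n9_126 := ⟨⟨_, c126⟩, ⟨_, c0⟩⟩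
theorem a9_127 : AllT Q n9_127 := ⟨⟨_, c127⟩, ⟨_, c0⟩⟩
theorem a9_128 : AllT Q n9_128 := ⟨⟨_, c128⟩, ⟨_, c0⟩⟩
theorem a9_129 : AllT Q n9_129 := ⟨⟨_, c129⟩, ⟨_, c0⟩⟩
theorem a9_130 : AllT Q n9_130 := ⟨⟨_, c130⟩, ⟨_, c0⟩⟩
theorem a9_131 : AllT Q n9_131 := ⟨⟨_, c131⟩, ⟨_, c0⟩⟩
theorem a9_132 : AllT Q n9_132 := ⟨⟨_, c132⟩, ⟨_, c0⟩⟩
theorem a9_133 : AllT Q n9_133 := ⟨⟨_, c133⟩, ⟨_, c0⟩⟩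
theorem a9_134 : AllT Q n9_134 := ⟨⟨_, c134⟩, ⟨_, c0⟩⟩
theorem a9_135 : AllT Q n9_135 := ⟨⟨_, c135⟩, ⟨_, c0⟩⟩
theorem a9_136 : AllT Q n9_136 := ⟨⟨_, c136⟩, ⟨_, c0⟩⟩
theorem a9_137 : AllT Q n9_137 := ⟨⟨_, c137⟩, ⟨_, c0⟩⟩
theorem a9_138 : AllT Q n9_138 := ⟨⟨_, c138⟩, ⟨_, c0⟩⟩
theorem a9_139 : AllT Q n9_139 := ⟨⟨_, c139⟩, ⟨_, c0⟩⟩
theorem a9_140 : AllT Q n9_140 := ⟨⟨_, c140⟩, ⟨_, c0⟩⟩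
theorem a9_141 : AllT Q n9_141 := ⟨⟨_, c141⟩, ⟨_, c0⟩⟩
theorem a9_142 : AllT Q n9_142 := ⟨⟨_, c142⟩, ⟨_, c0⟩⟩
theorem a9_143 : AllT Q n9_143 := ⟨⟨_, c143⟩, ⟨_, c0⟩⟩
theorem a9_144 : AllT Q n9_144 := ⟨⟨_, c144⟩, ⟨_, c0⟩⟩
theorem a9_145 : AllT Q n9_145 := ⟨⟨_, c145⟩, ⟨_, c0⟩⟩
theorem a9_146 : AllT Q n9_146 := ⟨⟨_, c146⟩, ⟨_, c0⟩⟩
theorem a9_147 : AllT Q n9_147 := ⟨⟨_, c147⟩, ⟨_, c0⟩⟩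
theorem a9_148 : AllT Q n9_148 := ⟨⟨_, c148⟩, ⟨_, c0⟩⟩
theorem a9_149 : AllT Q n9_149 := ⟨⟨_, c149⟩, ⟨_, c0⟩⟩
theorem a9_150 : AllT Q n9_150 := ⟨⟨_, c150⟩, ⟨_, c0⟩⟩
theorem a9_151 : AllT Q n9_151 := ⟨⟨_, c151⟩, ⟨_, c0⟩⟩
theorem a9_152 : AllT Q n9_152 := ⟨⟨_, c152⟩, ⟨_, c0⟩⟩
theorem a9_153 : AllT Q n9_153 := ⟨⟨_, c153⟩, ⟨_, c0⟩⟩
theorem a9_154 : AllT Q n9_154 := ⟨⟨_, c154⟩, ⟨_, c0⟩⟩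
theorem a9_155 : AllT Q n9_155 := ⟨⟨_, c155⟩, ⟨_, c0⟩⟩
theorem a9_156 : AllT Q n9_156 := ⟨⟨_, c156⟩, ⟨_, c0⟩⟩
theorem a9_157 : AllT Q n9_157 := ⟨⟨_, c157⟩, ⟨_, c0⟩⟩
theorem a9_158 : AllT Q n9_158 := ⟨⟨_, c158⟩, ⟨_, c0⟩⟩
theorem a9_159 : AllT Q n9_159 := ⟨⟨_, c159⟩, ⟨_, c0⟩⟩
theorem a9_160 : AllT Q n9_160 := ⟨⟨_, c160⟩, ⟨_, c0⟩⟩
theorem a9_161 : AllT Q n9_161 := ⟨⟨_, c161⟩, ⟨_, c0⟩⟩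
theorem a9_162 : AllT Q n9_162 := ⟨⟨_, c162⟩, ⟨_, c0⟩⟩
theorem a9_163 : AllT Q n9_163 := ⟨⟨_, c163⟩, ⟨_, c0⟩⟩
theorem a9_164 : AllT Q n9_164 := ⟨⟨_, c164⟩, ⟨_, c0⟩⟩
theorem a9_165 : AllT Q n9_165 := ⟨⟨_, c165⟩, ⟨_, c0⟩⟩
theorem a9_166 : AllT Q n9_166 := ⟨⟨_, c166⟩, ⟨_, c0⟩⟩
theorem a9_167 : AllT Q n9_167 := ⟨⟨_, c167⟩, ⟨_, c0⟩⟩
theorem a9_168 : AllT Q n9_168 := ⟨⟨_, c168⟩, ⟨_, c0⟩⟩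
theorem a9_169 : AllT Q n9_169 := ⟨⟨_, c169⟩, ⟨_, c0⟩⟩
theorem a9_170 : AllT Q n9_170 := ⟨⟨_, c170⟩, ⟨_, c0⟩⟩
theorem a9_171 : AllT Q n9_171 := ⟨⟨_, c171⟩, ⟨_, c0⟩⟩
theorem a9_172 : AllT Q n9_172 := ⟨⟨_, c172⟩, ⟨_, c0⟩⟩
theorem a9_173 : AllT Q n9_173 := ⟨⟨_, c173⟩, ⟨_, c0⟩⟩
theorem a9_174 : AllT Q n9_174 := ⟨⟨_, c174⟩, ⟨_, c0⟩⟩
theorem a9_175 : AllT Q n9_175 := ⟨⟨_, c175⟩, ⟨_, c0⟩⟩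
theorem a9_176 : AllT Q n9_176 := ⟨⟨_, c176⟩, ⟨_, c0⟩⟩
theorem a9_177 : AllT Q n9_177 := ⟨⟨_, c177⟩, ⟨_, c0⟩⟩
theorem a9_178 : AllT Q n9_178 := ⟨⟨_, c178⟩, ⟨_, c0⟩⟩
theorem a9_179 : AllT Q n9_179 := ⟨⟨_, c179⟩, ⟨_, c0⟩⟩
theorem a9_180 : AllT Q n9_180 := ⟨⟨_, c180⟩, ⟨_, c0⟩⟩
theorem a9_181 : AllT Q n9_181 := ⟨⟨_, c181⟩, ⟨_, c0⟩⟩
theorem a9_182 : AllT Q n9_182 := ⟨⟨_, c182⟩, ⟨_, c0⟩⟩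
theorem a9_183 : AllT Q n9_183 := ⟨⟨_, c183⟩, ⟨_, c0⟩⟩
theorem a9_184 : AllT Q n9_184 := ⟨⟨_, c184⟩, ⟨_, c0⟩⟩
theorem a9_185 : AllT Q n9_185 := ⟨⟨_, c185⟩, ⟨_, c0⟩⟩
theorem a9_186 : AllT Q n9_186 := ⟨⟨_, c186⟩, ⟨_, c0⟩⟩
theorem a9_187 : AllT Q n9_187 := ⟨⟨_, c187⟩, ⟨_, c0⟩⟩
theorem a9_188 : AllT Q n9_188 := ⟨⟨_, c188⟩, ⟨_, c0⟩⟩
theorem a9_189 : AllT Q n9_189 := ⟨⟨_, c189⟩, ⟨_, c0⟩⟩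
theorem a9_190 : AllT Q n9_190 := ⟨⟨_, c190⟩, ⟨_, c0⟩⟩
theorem a9_191 : AllT Q n9_191 := ⟨⟨_, c191⟩, ⟨_, c0⟩⟩
theorem a9_192 : AllT Q n9_192 := ⟨⟨_, c192⟩, ⟨_, c0⟩⟩
theorem a9_193 : AllT Q n9_193 := ⟨⟨_, c193⟩, ⟨_, c0⟩⟩
theorem a9_194 : AllT Q n9_194 := ⟨⟨_, c194⟩, ⟨_, c0⟩⟩
theorem a9_195 : AllT Q n9_195 := ⟨⟨_, c195⟩, ⟨_, c0⟩⟩
theorem a9_196 : AllT Q n9_196 := ⟨⟨_, c196⟩, ⟨_, c0⟩⟩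
theorem a9_197 : AllT Q n9_197 := ⟨⟨_, c197⟩, ⟨_, c0⟩⟩
theorem a9_198 : AllT Q n9_198 := ⟨⟨_, c198⟩, ⟨_, c0⟩⟩
theorem a9_199 : AllT Q n9_199 := ⟨⟨_, c199⟩, ⟨_, c0⟩⟩
theorem a9_200 : AllT Q n9_200 := ⟨⟨_, c200⟩, ⟨_, c0⟩⟩
theorem a9_201 : AllT Q n9_201 := ⟨⟨_, c201⟩, ⟨_, c0⟩⟩
theorem a9_202 : AllT Q n9_202 := ⟨⟨_, c202⟩, ⟨_, c0⟩⟩
theorem a9_203 : AllT Q n9_203 := ⟨⟨_, c203⟩, ⟨_, c0⟩⟩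
theorem a9_204 : AllT Q n9_204 := ⟨⟨_, c204⟩, ⟨_, c0⟩⟩
theorem a9_205 : AllT Q n9_205 := ⟨⟨_, c205⟩, ⟨_, c0⟩⟩
theorem a9_206 : AllT Q n9_206 := ⟨⟨_, c206⟩, ⟨_, c0⟩⟩
theorem a9_207 : AllT Q n9_207 := ⟨⟨_, c207⟩, ⟨_, c0⟩⟩
theorem a9_208 : AllT Q n9_208 := ⟨⟨_, c208⟩, ⟨_, c0⟩⟩
theorem a9_209 : AllT Q n9_209 := ⟨⟨_, c209⟩, ⟨_, c0⟩⟩
theorem a9_210 : AllT Q n9_210 := ⟨⟨_, c210⟩, ⟨_, c0⟩⟩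
theorem a9_211 : AllT Q n9_211 := ⟨⟨_, c211⟩, ⟨_, c0⟩⟩
theorem a9_212 : AllT Q n9_212 := ⟨⟨_, c212⟩, ⟨_, c0⟩⟩
theorem a9_213 : AllT Q n9_213 := ⟨⟨_, c213⟩, ⟨_, c0⟩⟩
theorem a9_214 : AllT Q n9_214 := ⟨⟨_, c214⟩, ⟨_, c0⟩⟩
theorem a9_215 : AllT Q n9_215 := ⟨⟨_, c215⟩, ⟨_, c0⟩⟩
theorem a9_216 : AllT Q n9_216 := ⟨⟨_, c216⟩, ⟨_, c0⟩⟩
theorem a9_217 : AllT Q n9_217 := ⟨⟨_, c217⟩, ⟨_, c0⟩⟩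
theorem a9_218 : AllT Q n9_218 := ⟨⟨_, c218⟩, ⟨_, c0⟩⟩
theorem a9_219 : AllT Q n9_219 := ⟨⟨_, c219⟩, ⟨_, c0⟩⟩
theorem a9_220 : AllT Q n9_220 := ⟨⟨_, c220⟩, ⟨_, c0⟩⟩
theorem a9_221 : AllT Q n9_221 := ⟨⟨_, c221⟩, ⟨_, c0⟩⟩
theorem a9_222 : AllT Q n9_222 := ⟨⟨_, c222⟩, ⟨_, c0⟩⟩
theorem a9_223 : AllT Q n9_223 := ⟨⟨_, c223⟩, ⟨_, c0⟩⟩
theorem a9_224 : AllT Q n9_224 := ⟨⟨_, c224⟩, ⟨_, c0⟩⟩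
theorem a9_225 : AllT Q n9_225 := ⟨⟨_, c225⟩, ⟨_, c0⟩⟩
theorem a9_226 : AllT Q n9_226 := ⟨⟨_, c226⟩, ⟨_, c0⟩⟩
theorem a9_227 : AllT Q n9_227 := ⟨⟨_, c227⟩, ⟨_, c0⟩⟩
theorem a9_228 : AllT Q n9_228 := ⟨⟨_, c228⟩, ⟨_, c0⟩⟩
theorem a9_229 : AllT Q n9_229 := ⟨⟨_, c229⟩, ⟨_, c0⟩⟩
theorem a9_230 : AllT Q n9_230 := ⟨⟨_, c230⟩, ⟨_, c0⟩⟩
theorem a9_231 : AllT Q n9_231 := ⟨⟨_, c231⟩, ⟨_, c0⟩⟩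
theorem a9_232 : AllT Q n9_232 := ⟨⟨_, c232⟩, ⟨_, c0⟩⟩
theorem a9_233 : AllT Q n9_233 := ⟨⟨_, c233⟩, ⟨_, c0⟩⟩
theorem a9_234 : AllT Q n9_234 := ⟨⟨_, c234⟩, ⟨_, c0⟩⟩
theorem a9_235 : AllT Q n9_235 := ⟨⟨_, c235⟩, ⟨_, c0⟩⟩
theorem a9_236 : AllT Q n9_236 := ⟨⟨_, c236⟩, ⟨_, c0⟩⟩
theorem a9_237 : AllT Q n9_237 := ⟨⟨_, c237⟩, ⟨_, c0⟩⟩
theorem a9_238 : AllT Q n9_238 := ⟨⟨_, c238⟩, ⟨_, c0⟩⟩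
theorem a9_239 : AllT Q n9_239 := ⟨⟨_, c239⟩, ⟨_, c0⟩⟩
theorem a9_240 : AllT Q n9_240 := ⟨⟨_, c240⟩, ⟨_, c0⟩⟩
theorem a9_241 : AllT Q n9_241 := ⟨⟨_, c241⟩, ⟨_, c0⟩⟩
theorem a9_242 : AllT Q n9_242 := ⟨⟨_, c242⟩, ⟨_, c0⟩⟩
theorem a9_243 : AllT Q n9_243 := ⟨⟨_, c243⟩, ⟨_, c0⟩⟩
theorem a9_244 : AllT Q n9_244 := ⟨⟨_, c244⟩, ⟨_, c0⟩⟩
theorem a9_245 : AllT Q n9_245 := ⟨⟨_, c245⟩, ⟨_, c0⟩⟩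
theorem a9_246 : AllT Q n9_246 := ⟨⟨_, c246⟩, ⟨_, c0⟩⟩
theorem a9_247 : AllT Q n9_247 := ⟨⟨_, c247⟩, ⟨_, c0⟩⟩
theorem a9_248 : AllT Q n9_248 := ⟨⟨_, c248⟩, ⟨_, c0⟩⟩
theorem a9_249 : AllT Q n9_249 := ⟨⟨_, c249⟩, ⟨_, c0⟩⟩
theorem a9_250 : AllT Q n9_250 := ⟨⟨_, c250⟩, ⟨_, c0⟩⟩
theorem a9_251 : AllT Q n9_251 := ⟨⟨_, c251⟩, ⟨_, c0⟩⟩
theorem a9_252 : AllT Q n9_252 := ⟨⟨_, c252⟩, ⟨_, c0⟩⟩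
theorem a9_253 : AllT Q n9_253 := ⟨⟨_, c253⟩, ⟨_, c0⟩⟩
theorem a9_254 : AllT Q n9_254 := ⟨⟨_, c254⟩, ⟨_, c0⟩⟩
theorem a9_255 : AllT Q n9_255 := ⟨⟨_, c255⟩, ⟨_, c0⟩⟩
theorem a9_256 : AllT Q n9_256 := ⟨⟨_, c256⟩, ⟨_, c0⟩⟩
theorem a9_257 : AllT Q n9_257 := ⟨⟨_, c257⟩, ⟨_, c0⟩⟩
theorem a9_258 : AllT Q n9_258 := ⟨⟨_, c258⟩, ⟨_, c0⟩⟩
theorem a9_259 : AllT Q n9_259 := ⟨⟨_, c259⟩, ⟨_, c0⟩⟩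
theorem a9_260 : AllT Q n9_260 := ⟨⟨_, c260⟩, ⟨_, c0⟩⟩
theorem a9_261 : AllT Q n9_261 := ⟨⟨_, c261⟩, ⟨_, c0⟩⟩
theorem a9_262 : AllT Q n9_262 := ⟨⟨_, c262⟩, ⟨_, c0⟩⟩
theorem a9_263 : AllT Q n9_263 := ⟨⟨_, c263⟩, ⟨_, c0⟩⟩
theorem a9_264 : AllT Q n9_264 := ⟨⟨_, c264⟩, ⟨_, c0⟩⟩
theorem a9_265 : AllT Q n9_265 := ⟨⟨_, c265⟩, ⟨_, c0⟩⟩
theorem a9_266 : AllT Q n9_266 := ⟨⟨_, c266⟩, ⟨_, c0⟩⟩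
theorem a9_267 : AllT Q n9_267 := ⟨⟨_, c267⟩, ⟨_, c0⟩⟩
theorem a9_268 : AllT Q n9_268 := ⟨⟨_, c268⟩, ⟨_, c0⟩⟩
theorem a9_269 : AllT Q n9_269 := ⟨⟨_, c269⟩, ⟨_, c0⟩⟩
theorem a9_270 : AllT Q n9_270 := ⟨⟨_, c270⟩, ⟨_, c0⟩⟩
theorem a9_271 : AllT Q n9_271 := ⟨⟨_, c271⟩, ⟨_, c0⟩⟩
theorem a9_272 : AllT Q n9_272 := ⟨⟨_, c272⟩, ⟨_, c0⟩⟩
theorem a9_273 : AllT Q n9_273 := ⟨⟨_, c273⟩, ⟨_, c0⟩⟩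
theorem a9_274 : AllT Q n9_274 := ⟨⟨_, c274⟩, ⟨_, c0⟩⟩
theorem a9_275 : AllT Q n9_275 := ⟨⟨_, c275⟩, ⟨_, c0⟩⟩
theorem a9_276 : AllT Q n9_276 := ⟨⟨_, c276⟩, ⟨_, c0⟩⟩
theorem a9_277 : AllT Q n9_277 := ⟨⟨_, c277⟩, ⟨_, c0⟩⟩
theorem a9_278 : AllT Q n9_278 := ⟨⟨_, c278⟩, ⟨_, c0⟩⟩
theorem a9_279 : AllT Q n9_279 := ⟨⟨_, c279⟩, ⟨_, c0⟩⟩
theorem a9_280 : AllT Q n9_280 := ⟨⟨_, c280⟩, ⟨_, c0⟩⟩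
theorem a9_281 : AllT Q n9_281 := ⟨⟨_, c281⟩, ⟨_, c0⟩⟩
theorem a9_282 : AllT Q n9_282 := ⟨⟨_, c282⟩, ⟨_, c0⟩⟩
theorem a9_283 : AllT Q n9_283 := ⟨⟨_, c283⟩, ⟨_, c0⟩⟩
theorem a9_284 : AllT Q n9_284 := ⟨⟨_, c284⟩, ⟨_, c0⟩⟩
theorem a9_285 : AllT Q n9_285 := ⟨⟨_, c285⟩, ⟨_, c0⟩⟩
theorem a9_286 : AllT Q n9_286 := ⟨⟨_, c286⟩, ⟨_, c0⟩⟩
theorem a9_287 : AllT Q n9_287 := ⟨⟨_, c287⟩, ⟨_, c0⟩⟩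
theorem a9_288 : AllT Q n9_288 := ⟨⟨_, c288⟩, ⟨_, c0⟩⟩
theorem a9_289 : AllT Q n9_289 := ⟨⟨_, c289⟩, ⟨_, c0⟩⟩
theorem a9_290 : AllT Q n9_290 := ⟨⟨_, c290⟩, ⟨_, c0⟩⟩
theorem a9_291 : AllT Q n9_291 := ⟨⟨_, c291⟩, ⟨_, c0⟩⟩
theorem a9_292 : AllT Q n9_292 := ⟨⟨_, c292⟩, ⟨_, c0⟩⟩
theorem a9_293 : AllT Q n9_293 := ⟨⟨_, c293⟩, ⟨_, c0⟩⟩
theorem a9_294 : AllT Q n9_294 := ⟨⟨_, c294⟩, ⟨_, c0⟩⟩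
theorem a9_295 : AllT Q n9_295 := ⟨⟨_, c295⟩, ⟨_, c0⟩⟩
theorem a9_296 : AllT Q n9_296 := ⟨⟨_, c296⟩, ⟨_, c0⟩⟩
theorem a9_297 : AllT Q n9_297 := ⟨⟨_, c297⟩, ⟨_, c0⟩⟩
theorem a9_298 : AllT Q n9_298 := ⟨⟨_, c298⟩, ⟨_, c0⟩⟩
theorem a9_299 : AllT Q n9_299 := ⟨⟨_, c299⟩, ⟨_, c0⟩⟩
theorem a9_300 : AllT Q n9_300 := ⟨⟨_, c300⟩, ⟨_, c0⟩⟩
theorem a9_301 : AllT Q n9_301 := ⟨⟨_, c301⟩, ⟨_, c0⟩⟩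
theorem a9_302 : AllT Q n9_302 := ⟨⟨_, c302⟩, ⟨_, c0⟩⟩
theorem a9_303 : AllT Q n9_303 := ⟨⟨_, c303⟩, ⟨_, c0⟩⟩
theorem a9_304 : AllT Q n9_304 := ⟨⟨_, c304⟩, ⟨_, c0⟩⟩
theorem a9_305 : AllT Q n9_305 := ⟨⟨_, c305⟩, ⟨_, c0⟩⟩
theorem a9_306 : AllT Q n9_306 := ⟨⟨_, c306⟩, ⟨_, c0⟩⟩
theorem a9_307 : AllT Q n9_307 := ⟨⟨_, c307⟩, ⟨_, c0⟩⟩
theorem a9_308 : AllT Q n9_308 := ⟨⟨_, c308⟩, ⟨_, c0⟩⟩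
theorem a9_309 : AllT Q n9_309 := ⟨⟨_, c309⟩, ⟨_, c0⟩⟩
theorem a9_310 : AllT Q n9_310 := ⟨⟨_, c310⟩, ⟨_, c0⟩⟩
theorem a9_311 : AllT Q n9_311 := ⟨⟨_, c311⟩, ⟨_, c0⟩⟩
theorem a9_312 : AllT Q n9_312 := ⟨⟨_, c312⟩, ⟨_, c0⟩⟩
theorem a9_313 : AllT Q n9_313 := ⟨⟨_, c313⟩, ⟨_, c0⟩⟩
theorem a9_314 : AllT Q n9_314 := ⟨⟨_, c314⟩, ⟨_, c0⟩⟩
theorem a9_315 : AllT Q n9_315 := ⟨⟨_, c315⟩, ⟨_, c0⟩⟩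
theorem a9_316 : AllT Q n9_316 := ⟨⟨_, c316⟩, ⟨_, c0⟩⟩
theorem a9_317 : AllT Q n9_317 := ⟨⟨_, c317⟩, ⟨_, c0⟩⟩
theorem a9_318 : AllT Q n9_318 := ⟨⟨_, c318⟩, ⟨_, c0⟩⟩
theorem a9_319 : AllT Q n9_319 := ⟨⟨_, c319⟩, ⟨_, c0⟩⟩
theorem a9_320 : AllT Q n9_320 := ⟨⟨_, c320⟩, ⟨_, c0⟩⟩
theorem a9_321 : AllT Q n9_321 := ⟨⟨_, c321⟩, ⟨_, c0⟩⟩
theorem a9_322 : AllT Q n9_322 := ⟨⟨_, c322⟩, ⟨_, c0⟩⟩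
theorem a9_323 : AllT Q n9_323 := ⟨⟨_, c323⟩, ⟨_, c0⟩⟩
theorem a9_324 : AllT Q n9_324 := ⟨⟨_, c324⟩, ⟨_, c0⟩⟩
theorem a9_325 : AllT Q n9_325 := ⟨⟨_, c325⟩, ⟨_, c0⟩⟩
theorem a9_326 : AllT Q n9_326 := ⟨⟨_, c326⟩, ⟨_, c0⟩⟩
theorem a9_327 : AllT Q n9_327 := ⟨⟨_, c327⟩, ⟨_, c0⟩⟩
theorem a9_328 : AllT Q n9_328 := ⟨⟨_, c328⟩, ⟨_, c0⟩⟩
theorem a9_329 : AllT Q n9_329 := ⟨⟨_, c329⟩, ⟨_, c0⟩⟩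
theorem a9_330 : AllT Q n9_330 := ⟨⟨_, c330⟩, ⟨_, c0⟩⟩
theorem a9_331 : AllT Q n9_331 := ⟨⟨_, c331⟩, ⟨_, c0⟩⟩
theorem a9_332 : AllT Q n9_332 := ⟨⟨_, c332⟩, ⟨_, c0⟩⟩
theorem a9_333 : AllT Q n9_333 := ⟨⟨_, c333⟩, ⟨_, c0⟩⟩
theorem a9_334 : AllT Q n9_334 := ⟨⟨_, c334⟩, ⟨_, c0⟩⟩
theorem a9_335 : AllT Q n9_335 := ⟨⟨_, c335⟩, ⟨_, c0⟩⟩
theorem a9_336 : AllT Q n9_336 := ⟨⟨_, c336⟩, ⟨_, c0⟩⟩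
theorem a9_337 : AllT Q n9_337 := ⟨⟨_, c337⟩, ⟨_, c0⟩⟩
theorem a9_338 : AllT Q n9_338 := ⟨⟨_, c338⟩, ⟨_, c0⟩⟩
theorem a9_339 : AllT Q n9_339 := ⟨⟨_, c339⟩, ⟨_, c0⟩⟩
theorem a9_340 : AllT Q n9_340 := ⟨⟨_, c340⟩, ⟨_, c0⟩⟩
theorem a9_341 : AllT Q n9_341 := ⟨⟨_, c341⟩, ⟨_, c0⟩⟩
theorem a9_342 : AllT Q n9_342 := ⟨⟨_, c342⟩, ⟨_, c0⟩⟩
theorem a9_343 : AllT Q n9_343 := ⟨⟨_, c343⟩, ⟨_, c0⟩⟩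
theorem a9_344 : AllT Q n9_344 := ⟨⟨_, c344⟩, ⟨_, c0⟩⟩
theorem a9_345 : AllT Q n9_345 := ⟨⟨_, c345⟩, ⟨_, c0⟩⟩
theorem a9_346 : AllT Q n9_346 := ⟨⟨_, c346⟩, ⟨_, c0⟩⟩
theorem a9_347 : AllT Q n9_347 := ⟨⟨_, c347⟩, ⟨_, c0⟩⟩
theorem a9_348 : AllT Q n9_348 := ⟨⟨_, c348⟩, ⟨_, c0⟩⟩
theorem a9_349 : AllT Q n9_349 := ⟨⟨_, c349⟩, ⟨_, c0⟩⟩
theorem a9_350 : AllT Q n9_350 := ⟨⟨_, c350⟩, ⟨_, c0⟩⟩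
theorem a9_351 : AllT Q n9_351 := ⟨⟨_, c351⟩, ⟨_, c0⟩⟩
theorem a9_352 : AllT Q n9_352 := ⟨⟨_, c352⟩, ⟨_, c0⟩⟩
theorem a9_353 : AllT Q n9_353 := ⟨⟨_, c353⟩, ⟨_, c0⟩⟩
theorem a9_354 : AllT Q n9_354 := ⟨⟨_, c354⟩, ⟨_, c0⟩⟩
theorem a9_355 : AllT Q n9_355 := ⟨⟨_, c355⟩, ⟨_, c0⟩⟩
theorem a9_356 : AllT Q n9_356 := ⟨⟨_, c356⟩, ⟨_, c0⟩⟩
theorem a9_357 : AllT Q n9_357 := ⟨⟨_, c357⟩, ⟨_, c0⟩⟩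
theorem a9_358 : AllT Q n9_358 := ⟨⟨_, c358⟩, ⟨_, c0⟩⟩
theorem a9_359 : AllT Q n9_359 := ⟨⟨_, c359⟩, ⟨_, c0⟩⟩
theorem a9_360 : AllT Q n9_360 := ⟨⟨_, c360⟩, ⟨_, c0⟩⟩
theorem a9_361 : AllT Q n9_361 := ⟨⟨_, c361⟩, ⟨_, c0⟩⟩
theorem a9_362 : AllT Q n9_362 := ⟨⟨_, c362⟩, ⟨_, c0⟩⟩
theorem a9_363 : AllT Q n9_363 := ⟨⟨_, c363⟩, ⟨_, c0⟩⟩
theorem a9_364 : AllT Q n9_364 := ⟨⟨_, c364⟩, ⟨_, c0⟩⟩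
theorem a9_365 : AllT Q n9_365 := ⟨⟨_, c365⟩, ⟨_, c0⟩⟩
theorem a9_366 : AllT Q n9_366 := ⟨⟨_, c366⟩, ⟨_, c0⟩⟩
theorem a9_367 : AllT Q n9_367 := ⟨⟨_, c367⟩, ⟨_, c0⟩⟩
theorem a9_368 : AllT Q n9_368 := ⟨⟨_, c368⟩, ⟨_, c0⟩⟩
theorem a9_369 : AllT Q n9_369 := ⟨⟨_, c369⟩, ⟨_, c0⟩⟩
theorem a9_370 : AllT Q n9_370 := ⟨⟨_, c370⟩, ⟨_, c0⟩⟩
theorem a9_371 : AllT Q n9_371 := ⟨⟨_, c371⟩, ⟨_, c0⟩⟩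
theorem a9_372 : AllT Q n9_372 := ⟨⟨_, c372⟩, ⟨_, c0⟩⟩
theorem a9_373 : AllT Q n9_373 := ⟨⟨_, c373⟩, ⟨_, c0⟩⟩
theorem a9_374 : AllT Q n9_374 := ⟨⟨_, c374⟩, ⟨_, c0⟩⟩
theorem a9_375 : AllT Q n9_375 := ⟨⟨_, c375⟩, ⟨_, c0⟩⟩
theorem a9_376 : AllT Q n9_376 := ⟨⟨_, c376⟩, ⟨_, c0⟩⟩
theorem a9_377 : AllT Q n9_377 := ⟨⟨_, c377⟩, ⟨_, c0⟩⟩
theorem a9_378 : AllT Q n9_378 := ⟨⟨_, c378⟩, ⟨_, c0⟩⟩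
theorem a9_379 : AllT Q n9_379 := ⟨⟨_, c379⟩, ⟨_, c0⟩⟩
theorem a9_380 : AllT Q n9_380 := ⟨⟨_, c380⟩, ⟨_, c0⟩⟩
theorem a9_381 : AllT Q n9_381 := ⟨⟨_, c381⟩, ⟨_, c0⟩⟩
theorem a9_382 : AllT Q n9_382 := ⟨⟨_, c382⟩, ⟨_, c0⟩⟩
theorem a9_383 : AllT Q n9_383 := ⟨⟨_, c383⟩, ⟨_, c0⟩⟩
theorem a9_384 : AllT Q n9_384 := ⟨⟨_, c384⟩, ⟨_, c0⟩⟩
theorem a9_385 : AllT Q n9_385 := ⟨⟨_, c385⟩, ⟨_, c0⟩⟩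
theorem a9_386 : AllT Q n9_386 := ⟨⟨_, c386⟩, ⟨_, c0⟩⟩
theorem a9_387 : AllT Q n9_387 := ⟨⟨_, c387⟩, ⟨_, c0⟩⟩
theorem a9_388 : AllT Q n9_388 := ⟨⟨_, c388⟩, ⟨_, c0⟩⟩
theorem a9_389 : AllT Q n9_389 := ⟨⟨_, c389⟩, ⟨_, c0⟩⟩
theorem a9_390 : AllT Q n9_390 := ⟨⟨_, c390⟩, ⟨_, c0⟩⟩
theorem a9_391 : AllT Q n9_391 := ⟨⟨_, c391⟩, ⟨_, c0⟩⟩
theorem a9_392 : AllT Q n9_392 := ⟨⟨_, c392⟩, ⟨_, c0⟩⟩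
theorem a9_393 : AllT Q n9_393 := ⟨⟨_, c393⟩, ⟨_, c0⟩⟩
theorem a9_394 : AllT Q n9_394 := ⟨⟨_, c394⟩, ⟨_, c0⟩⟩
theorem a9_395 : AllT Q n9_395 := ⟨⟨_, c395⟩, ⟨_, c0⟩⟩
theorem a9_396 : AllT Q n9_396 := ⟨⟨_, c396⟩, ⟨_, c0⟩⟩
theorem a9_397 : AllT Q n9_397 := ⟨⟨_, c397⟩, ⟨_, c0⟩⟩
theorem a9_398 : AllT Q n9_398 := ⟨⟨_, c398⟩, ⟨_, c0⟩⟩
theorem a9_399 : AllT Q n9_399 := ⟨⟨_, c399⟩, ⟨_, c0⟩⟩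
theorem a9_400 : AllT Q n9_400 := ⟨⟨_, c400⟩, ⟨_, c0⟩⟩
theorem a9_401 : AllT Q n9_401 := ⟨⟨_, c401⟩, ⟨_, c0⟩⟩
theorem a9_402 : AllT Q n9_402 := ⟨⟨_, c402⟩, ⟨_, c0⟩⟩
theorem a9_403 : AllT Q n9_403 := ⟨⟨_, c403⟩, ⟨_, c0⟩⟩
theorem a9_404 : AllT Q n9_404 := ⟨⟨_, c404⟩, ⟨_, c0⟩⟩
theorem a9_405 : AllT Q n9_405 := ⟨⟨_, c405⟩, ⟨_, c0⟩⟩
theorem a9_406 : AllT Q n9_406 := ⟨⟨_, c406⟩, ⟨_, c0⟩⟩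
theorem a9_407 : AllT Q n9_407 := ⟨⟨_, c407⟩, ⟨_, c0⟩⟩
theorem a9_408 : AllT Q n9_408 := ⟨⟨_, c408⟩, ⟨_, c0⟩⟩
theorem a9_409 : AllT Q n9_409 := ⟨⟨_, c409⟩, ⟨_, c0⟩⟩
theorem a9_410 : AllT Q n9_410 := ⟨⟨_, c410⟩, ⟨_, c0⟩⟩
theorem a9_411 : AllT Q n9_411 := ⟨⟨_, c411⟩, ⟨_, c0⟩⟩
theorem a9_412 : AllT Q n9_412 := ⟨⟨_, c412⟩, ⟨_, c0⟩⟩
theorem a9_413 : AllT Q n9_413 := ⟨⟨_, c413⟩, ⟨_, c0⟩⟩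
theorem a9_414 : AllT Q n9_414 := ⟨⟨_, c414⟩, ⟨_, c0⟩⟩
theorem a9_415 : AllT Q n9_415 := ⟨⟨_, c415⟩, ⟨_, c0⟩⟩
theorem a9_416 : AllT Q n9_416 := ⟨⟨_, c416⟩, ⟨_, c0⟩⟩
theorem a9_417 : AllT Q n9_417 := ⟨⟨_, c417⟩, ⟨_, c0⟩⟩
theorem a9_418 : AllT Q n9_418 := ⟨⟨_, c418⟩, ⟨_, c0⟩⟩
theorem a9_419 : AllT Q n9_419 := ⟨⟨_, c419⟩, ⟨_, c0⟩⟩
theorem a9_420 : AllT Q n9_420 := ⟨⟨_, c420⟩, ⟨_, c0⟩⟩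
theorem a9_421 : AllT Q n9_421 := ⟨⟨_, c421⟩, ⟨_, c0⟩⟩
theorem a9_422 : AllT Q n9_422 := ⟨⟨_, c422⟩, ⟨_, c0⟩⟩
theorem a9_423 : AllT Q n9_423 := ⟨⟨_, c423⟩, ⟨_, c0⟩⟩
theorem a9_424 : AllT Q n9_424 := ⟨⟨_, c424⟩, ⟨_, c0⟩⟩
theorem a9_425 : AllT Q n9_425 := ⟨⟨_, c425⟩, ⟨_, c0⟩⟩
theorem a9_426 : AllT Q n9_426 := ⟨⟨_, c426⟩, ⟨_, c0⟩⟩
theorem a9_427 : AllT Q n9_427 := ⟨⟨_, c427⟩, ⟨_, c0⟩⟩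
theorem a9_428 : AllT Q n9_428 := ⟨⟨_, c428⟩, ⟨_, c0⟩⟩
theorem a9_429 : AllT Q n9_429 := ⟨⟨_, c429⟩, ⟨_, c0⟩⟩
theorem a9_430 : AllT Q n9_430 := ⟨⟨_, c430⟩, ⟨_, c0⟩⟩
theorem a9_431 : AllT Q n9_431 := ⟨⟨_, c431⟩, ⟨_, c0⟩⟩
theorem a9_432 : AllT Q n9_432 := ⟨⟨_, c432⟩, ⟨_, c0⟩⟩
theorem a9_433 : AllT Q n9_433 := ⟨⟨_, c433⟩, ⟨_, c0⟩⟩
theorem a9_434 : AllT Q n9_434 := ⟨⟨_, c434⟩, ⟨_, c0⟩⟩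
theorem a9_435 : AllT Q n9_435 := ⟨⟨_, c435⟩, ⟨_, c0⟩⟩
theorem a9_436 : AllT Q n9_436 := ⟨⟨_, c436⟩, ⟨_, c0⟩⟩
theorem a9_437 : AllT Q n9_437 := ⟨⟨_, c437⟩, ⟨_, c0⟩⟩
theorem a9_438 : AllT Q n9_438 := ⟨⟨_, c438⟩, ⟨_, c0⟩⟩
theorem a9_439 : AllT Q n9_439 := ⟨⟨_, c439⟩, ⟨_, c0⟩⟩
theorem a9_440 : AllT Q n9_440 := ⟨⟨_, c440⟩, ⟨_, c0⟩⟩
theorem a9_441 : AllT Q n9_441 := ⟨⟨_, c441⟩, ⟨_, c0⟩⟩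
theorem a9_442 : AllT Q n9_442 := ⟨⟨_, c442⟩, ⟨_, c0⟩⟩
theorem a9_443 : AllT Q n9_443 := ⟨⟨_, c443⟩, ⟨_, c0⟩⟩
theorem a9_444 : AllT Q n9_444 := ⟨⟨_, c444⟩, ⟨_, c0⟩⟩
theorem a9_445 : AllT Q n9_445 := ⟨⟨_, c445⟩, ⟨_, c0⟩⟩
theorem a9_446 : AllT Q n9_446 := ⟨⟨_, c446⟩, ⟨_, c0⟩⟩
theorem a9_447 : AllT Q n9_447 := ⟨⟨_, c447⟩, ⟨_, c0⟩⟩
theorem a9_448 : AllT Q n9_448 := ⟨⟨_, c448⟩, ⟨_, c0⟩⟩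
theorem a9_449 : AllT Q n9_449 := ⟨⟨_, c449⟩, ⟨_, c0⟩⟩
theorem a9_450 : AllT Q n9_450 := ⟨⟨_, c450⟩, ⟨_, c0⟩⟩
theorem a9_451 : AllT Q n9_451 := ⟨⟨_, c451⟩, ⟨_, c0⟩⟩
theorem a9_452 : AllT Q n9_452 := ⟨⟨_, c452⟩, ⟨_, c0⟩⟩
theorem a9_453 : AllT Q n9_453 := ⟨⟨_, c453⟩, ⟨_, c0⟩⟩
theorem a9_454 : AllT Q n9_454 := ⟨⟨_, c454⟩, ⟨_, c0⟩⟩
theorem a9_455 : AllT Q n9_455 := ⟨⟨_, c455⟩, ⟨_, c0⟩⟩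
theorem a9_456 : AllT Q n9_456 := ⟨⟨_, c456⟩, ⟨_, c0⟩⟩
theorem a9_457 : AllT Q n9_457 := ⟨⟨_, c457⟩, ⟨_, c0⟩⟩
theorem a9_458 : AllT Q n9_458 := ⟨⟨_, c458⟩, ⟨_, c0⟩⟩
theorem a9_459 : AllT Q n9_459 := ⟨⟨_, c459⟩, ⟨_, c0⟩⟩
theorem a9_460 : AllT Q n9_460 := ⟨⟨_, c460⟩, ⟨_, c0⟩⟩
theorem a9_461 : AllT Q n9_461 := ⟨⟨_, c461⟩, ⟨_, c0⟩⟩
theorem a9_462 : AllT Q n9_462 := ⟨⟨_, c462⟩, ⟨_, c0⟩⟩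
theorem a9_463 : AllT Q n9_463 := ⟨⟨_, c463⟩, ⟨_, c0⟩⟩
theorem a9_464 : AllT Q n9_464 := ⟨⟨_, c464⟩, ⟨_, c0⟩⟩
theorem a9_465 : AllT Q n9_465 := ⟨⟨_, c465⟩, ⟨_, c0⟩⟩
theorem a9_466 : AllT Q n9_466 := ⟨⟨_, c466⟩, ⟨_, c0⟩⟩
theorem a9_467 : AllT Q n9_467 := ⟨⟨_, c467⟩, ⟨_, c0⟩⟩
theorem a9_468 : AllT Q n9_468 := ⟨⟨_, c468⟩, ⟨_, c0⟩⟩
theorem a9_469 : AllT Q n9_469 := ⟨⟨_, c469⟩, ⟨_, c0⟩⟩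
theorem a9_470 : AllT Q n9_470 := ⟨⟨_, c470⟩, ⟨_, c0⟩⟩
theorem a9_471 : AllT Q n9_471 := ⟨⟨_, c471⟩, ⟨_, c0⟩⟩
theorem a9_472 : AllT Q n9_472 := ⟨⟨_, c472⟩, ⟨_, c0⟩⟩
theorem a9_473 : AllT Q n9_473 := ⟨⟨_, c473⟩, ⟨_, c0⟩⟩
theorem a9_474 : AllT Q n9_474 := ⟨⟨_, c474⟩, ⟨_, c0⟩⟩
theorem a9_475 : AllT Q n9_475 := ⟨⟨_, c475⟩, ⟨_, c0⟩⟩
theorem a9_476 : AllT Q n9_476 := ⟨⟨_, c476⟩, ⟨_, c0⟩⟩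
theorem a9_477 : AllT Q n9_477 := ⟨⟨_, c477⟩, ⟨_, c0⟩⟩
theorem a9_478 : AllT Q n9_478 := ⟨⟨_, c478⟩, ⟨_, c0⟩⟩
theorem a9_479 : AllT Q n9_479 := ⟨⟨_, c479⟩, ⟨_, c0⟩⟩
theorem a9_480 : AllT Q n9_480 := ⟨⟨_, c480⟩, ⟨_, c0⟩⟩
theorem a9_481 : AllT Q n9_481 := ⟨⟨_, c481⟩, ⟨_, c0⟩⟩
theorem a9_482 : AllT Q n9_482 := ⟨⟨_, c482⟩, ⟨_, c0⟩⟩
theorem a9_483 : AllT Q n9_483 := ⟨⟨_, c483⟩, ⟨_, c0⟩⟩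
theorem a9_484 : AllT Q n9_484 := ⟨⟨_, c484⟩, ⟨_, c0⟩⟩
theorem a9_485 : AllT Q n9_485 := ⟨⟨_, c485⟩, ⟨_, c0⟩⟩
theorem a9_486 : AllT Q n9_486 := ⟨⟨_, c486⟩, ⟨_, c0⟩⟩
theorem a9_487 : AllT Q n9_487 := ⟨⟨_, c487⟩, ⟨_, c0⟩⟩
theorem a9_488 : AllT Q n9_488 := ⟨⟨_, c488⟩, ⟨_, c0⟩⟩
theorem a9_489 : AllT Q n9_489 := ⟨⟨_, c489⟩, ⟨_, c0⟩⟩
theorem a9_490 : AllT Q n9_490 := ⟨⟨_, c490⟩, ⟨_, c0⟩⟩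
theorem a9_491 : AllT Q n9_491 := ⟨⟨_, c491⟩, ⟨_, c0⟩⟩
theorem a9_492 : AllT Q n9_492 := ⟨⟨_, c492⟩, ⟨_, c0⟩⟩
theorem a9_493 : AllT Q n9_493 := ⟨⟨_, c493⟩, ⟨_, c0⟩⟩
theorem a9_494 : AllT Q n9_494 := ⟨⟨_, c494⟩, ⟨_, c0⟩⟩
theorem a9_495 : AllT Q n9_495 := ⟨⟨_, c495⟩, ⟨_, c0⟩⟩
theorem a9_496 : AllT Q n9_496 := ⟨⟨_, c496⟩, ⟨_, c0⟩⟩
theorem a9_497 : AllT Q n9_497 := ⟨⟨_, c497⟩, ⟨_, c0⟩⟩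
theorem a9_498 : AllT Q n9_498 := ⟨⟨_, c498⟩, ⟨_, c0⟩⟩
theorem a9_499 : AllT Q n9_499 := ⟨⟨_, c499⟩, ⟨_, c0⟩⟩
theorem a9_500 : AllT Q n9_500 := ⟨⟨_, c500⟩, ⟨_, c0⟩⟩
theorem a9_501 : AllT Q n9_501 := ⟨⟨_, c501⟩, ⟨_, c0⟩⟩
theorem a9_502 : AllT Q n9_502 := ⟨⟨_, c502⟩, ⟨_, c0⟩⟩
theorem a9_503 : AllT Q n9_503 := ⟨⟨_, c503⟩, ⟨_, c0⟩⟩
theorem a9_504 : AllT Q n9_504 := ⟨⟨_, c504⟩, ⟨_, c0⟩⟩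
theorem a9_505 : AllT Q n9_505 := ⟨⟨_, c505⟩, ⟨_, c0⟩⟩
theorem a9_506 : AllT Q n9_506 := ⟨⟨_, c506⟩, ⟨_, c0⟩⟩
theorem a9_507 : AllT Q n9_507 := ⟨⟨_, c507⟩, ⟨_, c0⟩⟩
theorem a9_508 : AllT Q n9_508 := ⟨⟨_, c508⟩, ⟨_, c0⟩⟩
theorem a9_509 : AllT Q n9_509 := ⟨⟨_, c509⟩, ⟨_, c0⟩⟩
theorem a9_510 : AllT Q n9_510 := ⟨⟨_, c510⟩, ⟨_, c0⟩⟩
theorem a9_511 : AllT Q n9_511 := ⟨⟨_, c511⟩, ⟨_, c0⟩⟩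
theorem a8_0 : AllT Q n8_0 := ⟨a9_0, a9_256⟩
theorem a8_1 : AllT Q n8_1 := ⟨a9_1, a9_257⟩
theorem a8_2 : AllT Q n8_2 := ⟨a9_2, a9_258⟩
theorem a8_3 : AllT Q n8_3 := ⟨a9_3, a9_259⟩
theorem a8_4 : AllT Q n8_4 := ⟨a9_4, a9_260⟩
theorem a8_5 : AllT Q n8_5 := ⟨a9_5, a9_261⟩
theorem a8_6 : AllT Q n8_6 := ⟨a9_6, a9_262⟩
theorem a8_7 : AllT Q n8_7 := ⟨a9_7, a9_263⟩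
theorem a8_8 : AllT Q n8_8 := ⟨a9_8, a9_264⟩
theorem a8_9 : AllT Q n8_9 := ⟨a9_9, a9_265⟩
theorem a8_10 : AllT Q n8_10 := ⟨a9_10, a9_266⟩
theorem a8_11 : AllT Q n8_11 := ⟨a9_11, a9_267⟩
theorem a8_12 : AllT Q n8_12 := ⟨a9_12, a9_268⟩
theorem a8_13 : AllT Q n8_13 := ⟨a9_13, a9_269⟩
theorem a8_14 : AllT Q n8_14 := ⟨a9_14, a9_270⟩
theorem a8_15 : AllT Q n8_15 := ⟨a9_15, a9_271⟩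
theorem a8_16 : AllT Q n8_16 := ⟨a9_16, a9_272⟩
theorem a8_17 : AllT Q n8_17 := ⟨a9_17, a9_273⟩
theorem a8_18 : AllT Q n8_18 := ⟨a9_18, a9_274⟩
theorem a8_19 : AllT Q n8_19 := ⟨a9_19, a9_275⟩
theorem a8_20 : AllT Q n8_20 := ⟨a9_20, a9_276⟩
theorem a8_21 : AllT Q n8_21 := ⟨a9_21, a9_277⟩
theorem a8_22 : AllT Q n8_22 := ⟨a9_22, a9_278⟩
theorem a8_23 : AllT Q n8_23 := ⟨a9_23, a9_279⟩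
theorem a8_24 : AllT Q n8_24 := ⟨a9_24, a9_280⟩
theorem a8_25 : AllT Q n8_25 := ⟨a9_25, a9_281⟩
theorem a8_26 : AllT Q n8_26 := ⟨a9_26, a9_282⟩
theorem a8_27 : AllT Q n8_27 := ⟨a9_27, a9_283⟩
theorem a8_28 : AllT Q n8_28 := ⟨a9_28, a9_284⟩
theorem a8_29 : AllT Q n8_29 := ⟨a9_29, a9_285⟩
theorem a8_30 : AllT Q n8_30 := ⟨a9_30, a9_286⟩
theorem a8_31 : AllT Q n8_31 := ⟨a9_31, a9_287⟩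
theorem a8_32 : AllT Q n8_32 := ⟨a9_32, a9_288⟩
theorem a8_33 : AllT Q n8_33 := ⟨a9_33, a9_289⟩
theorem a8_34 : AllT Q n8_34 := ⟨a9_34, a9_290⟩
theorem a8_35 : AllT Q n8_35 := ⟨a9_35, a9_291⟩
theorem a8_36 : AllT Q n8_36 := ⟨a9_36, a9_292⟩
theorem a8_37 : AllT Q n8_37 := ⟨a9_37, a9_293⟩
theorem a8_38 : AllT Q n8_38 := ⟨a9_38, a9_294⟩
theorem a8_39 : AllT Q n8_39 := ⟨a9_39, a9_295⟩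
theorem a8_40 : AllT Q n8_40 := ⟨a9_40, a9_296⟩
theorem a8_41 : AllT Q n8_41 := ⟨a9_41, a9_297⟩
theorem a8_42 : AllT Q n8_42 := ⟨a9_42, a9_298⟩
theorem a8_43 : AllT Q n8_43 := ⟨a9_43, a9_299⟩
theorem a8_44 : AllT Q n8_44 := ⟨a9_44, a9_300⟩
theorem a8_45 : AllT Q n8_45 := ⟨a9_45, a9_301⟩
theorem a8_46 : AllT Q n8_46 := ⟨a9_46, a9_302⟩
theorem a8_47 : AllT Q n8_47 := ⟨a9_47, a9_303⟩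
theorem a8_48 : AllT Q n8_48 := ⟨a9_48, a9_304⟩
theorem a8_49 : AllT Q n8_49 := ⟨a9_49, a9_305⟩
theorem a8_50 : AllT Q n8_50 := ⟨a9_50, a9_306⟩
theorem a8_51 : AllT Q n8_51 := ⟨a9_51, a9_307⟩
theorem a8_52 : AllT Q n8_52 := ⟨a9_52, a9_308⟩
theorem a8_53 : AllT Q n8_53 := ⟨a9_53, a9_309⟩
theorem a8_54 : AllT Q n8_54 := ⟨a9_54, a9_310⟩
theorem a8_55 : AllT Q n8_55 := ⟨a9_55, a9_311⟩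
theorem a8_56 : AllT Q n8_56 := ⟨a9_56, a9_312⟩
theorem a8_57 : AllT Q n8_57 := ⟨a9_57, a9_313⟩
theorem a8_58 : AllT Q n8_58 := ⟨a9_58, a9_314⟩
theorem a8_59 : AllT Q n8_59 := ⟨a9_59, a9_315⟩
theorem a8_60 : AllT Q n8_60 := ⟨a9_60, a9_316⟩
theorem a8_61 : AllT Q n8_61 := ⟨a9_61, a9_317⟩
theorem a8_62 : AllT Q n8_62 := ⟨a9_62, a9_318⟩
theorem a8_63 : AllT Q n8_63 := ⟨a9_63, a9_319⟩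
theorem a8_64 : AllT Q n8_64 := ⟨a9_64, a9_320⟩
theorem a8_65 : AllT Q n8_65 := ⟨a9_65, a9_321⟩
theorem a8_66 : AllT Q n8_66 := ⟨a9_66, a9_322⟩
theorem a8_67 : AllT Q n8_67 := ⟨a9_67, a9_323⟩
theorem a8_68 : AllT Q n8_68 := ⟨a9_68, a9_324⟩
theorem a8_69 : AllT Q n8_69 := ⟨a9_69, a9_325⟩
theorem a8_70 : AllT Q n8_70 := ⟨a9_70, a9_326⟩
theorem a8_71 : AllT Q n8_71 := ⟨a9_71, a9_327⟩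
theorem a8_72 : AllT Q n8_72 := ⟨a9_72, a9_328⟩
theorem a8_73 : AllT Q n8_73 := ⟨a9_73, a9_329⟩
theorem a8_74 : AllT Q n8_74 := ⟨a9_74, a9_330⟩
theorem a8_75 : AllT Q n8_75 := ⟨a9_75, a9_331⟩
theorem a8_76 : AllT Q n8_76 := ⟨a9_76, a9_332⟩
theorem a8_77 : AllT Q n8_77 := ⟨a9_77, a9_333⟩
theorem a8_78 : AllT Q n8_78 := ⟨a9_78, a9_334⟩
theorem a8_79 : AllT Q n8_79 := ⟨a9_79, a9_335⟩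
theorem a8_80 : AllT Q n8_80 := ⟨a9_80, a9_336⟩
theorem a8_81 : AllT Q n8_81 := ⟨a9_81, a9_337⟩
theorem a8_82 : AllT Q n8_82 := ⟨a9_82, a9_338⟩
theorem a8_83 : AllT Q n8_83 := ⟨a9_83, a9_339⟩
theorem a8_84 : AllT Q n8_84 := ⟨a9_84, a9_340⟩
theorem a8_85 : AllT Q n8_85 := ⟨a9_85, a9_341⟩
theorem a8_86 : AllT Q n8_86 := ⟨a9_86, a9_342⟩
theorem a8_87 : AllT Q n8_87 := ⟨a9_87, a9_343⟩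
theorem a8_88 : AllT Q n8_88 := ⟨a9_88, a9_344⟩
theorem a8_89 : AllT Q n8_89 := ⟨a9_89, a9_345⟩
theorem a8_90 : AllT Q n8_90 := ⟨a9_90, a9_346⟩
theorem a8_91 : AllT Q n8_91 := ⟨a9_91, a9_347⟩
theorem a8_92 : AllT Q n8_92 := ⟨a9_92, a9_348⟩
theorem a8_93 : AllT Q n8_93 := ⟨a9_93, a9_349⟩
theorem a8_94 : AllT Q n8_94 := ⟨a9_94, a9_350⟩
theorem a8_95 : AllT Q n8_95 := ⟨a9_95, a9_351⟩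
theorem a8_96 : AllT Q n8_96 := ⟨a9_96, a9_352⟩
theorem a8_97 : AllT Q n8_97 := ⟨a9_97, a9_353⟩
theorem a8_98 : AllT Q n8_98 := ⟨a9_98, a9_354⟩
theorem a8_99 : AllT Q n8_99 := ⟨a9_99, a9_355⟩
theorem a8_100 : AllT Q n8_100 := ⟨a9_100, a9_356⟩
theorem a8_101 : AllT Q n8_101 := ⟨a9_101, a9_357⟩
theorem a8_102 : AllT Q n8_102 := ⟨a9_102, a9_358⟩
theorem a8_103 : AllT Q n8_103 := ⟨a9_103, a9_359⟩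
theorem a8_104 : AllT Q n8_104 := ⟨a9_104, a9_360⟩
theorem a8_105 : AllT Q n8_105 := ⟨a9_105, a9_361⟩
theorem a8_106 : AllT Q n8_106 := ⟨a9_106, a9_362⟩
theorem a8_107 : AllT Q n8_107 := ⟨a9_107, a9_363⟩
theorem a8_108 : AllT Q n8_108 := ⟨a9_108, a9_364⟩
theorem a8_109 : AllT Q n8_109 := ⟨a9_109, a9_365⟩
theorem a8_110 : AllT Q n8_110 := ⟨a9_110, a9_366⟩
theorem a8_111 : AllT Q n8_111 := ⟨a9_111, a9_367⟩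
theorem a8_112 : AllT Q n8_112 := ⟨a9_112, a9_368⟩
theorem a8_113 : AllT Q n8_113 := ⟨a9_113, a9_369⟩
theorem a8_114 : AllT Q n8_114 := ⟨a9_114, a9_370⟩
theorem a8_115 : AllT Q n8_115 := ⟨a9_115, a9_371⟩
theorem a8_116 : AllT Q n8_116 := ⟨a9_116, a9_372⟩
theorem a8_117 : AllT Q n8_117 := ⟨a9_117, a9_373⟩
theorem a8_118 : AllT Q n8_118 := ⟨a9_118, a9_374⟩
theorem a8_119 : AllT Q n8_119 := ⟨a9_119, a9_375⟩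
theorem a8_120 : AllT Q n8_120 := ⟨a9_120, a9_376⟩
theorem a8_121 : AllT Q n8_121 := ⟨a9_121, a9_377⟩
theorem a8_122 : AllT Q n8_122 := ⟨a9_122, a9_378⟩
theorem a8_123 : AllT Q n8_123 := ⟨a9_123, a9_379⟩
theorem a8_124 : AllT Q n8_124 := ⟨a9_124, a9_380⟩
theorem a8_125 : AllT Q n8_125 := ⟨a9_125, a9_381⟩
theorem a8_126 : AllT Q n8_126 := ⟨a9_126, a9_382⟩
theorem a8_127 : AllT Q n8_127 := ⟨a9_127, a9_383⟩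
theorem a8_128 : AllT Q n8_128 := ⟨a9_128, a9_384⟩
theorem a8_129 : AllT Q n8_129 := ⟨a9_129, a9_385⟩
theorem a8_130 : AllT Q n8_130 := ⟨a9_130, a9_386⟩
theorem a8_131 : AllT Q n8_131 := ⟨a9_131, a9_387⟩
theorem a8_132 : AllT Q n8_132 := ⟨a9_132, a9_388⟩
theorem a8_133 : AllT Q n8_133 := ⟨a9_133, a9_389⟩
theorem a8_134 : AllT Q n8_134 := ⟨a9_134, a9_390⟩
theorem a8_135 : AllT Q n8_135 := ⟨a9_135, a9_391⟩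
theorem a8_136 : AllT Q n8_136 := ⟨a9_136, a9_392⟩
theorem a8_137 : AllT Q n8_137 := ⟨a9_137, a9_393⟩
theorem a8_138 : AllT Q n8_138 := ⟨a9_138, a9_394⟩
theorem a8_139 : AllT Q n8_139 := ⟨a9_139, a9_395⟩
theorem a8_140 : AllT Q n8_140 := ⟨a9_140, a9_396⟩
theorem a8_141 : AllT Q n8_141 := ⟨a9_141, a9_397⟩
theorem a8_142 : AllT Q n8_142 := ⟨a9_142, a9_398⟩
theorem a8_143 : AllT Q n8_143 := ⟨a9_143, a9_399⟩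
theorem a8_144 : AllT Q n8_144 := ⟨a9_144, a9_400⟩
theorem a8_145 : AllT Q n8_145 := ⟨a9_145, a9_401⟩
theorem a8_146 : AllT Q n8_146 := ⟨a9_146, a9_402⟩
theorem a8_147 : AllT Q n8_147 := ⟨a9_147, a9_403⟩
theorem a8_148 : AllT Q n8_148 := ⟨a9_148, a9_404⟩
theorem a8_149 : AllT Q n8_149 := ⟨a9_149, a9_405⟩
theorem a8_150 : AllT Q n8_150 := ⟨a9_150, a9_406⟩
theorem a8_151 : AllT Q n8_151 := ⟨a9_151, a9_407⟩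
theorem a8_152 : AllT Q n8_152 := ⟨a9_152, a9_408⟩
theorem a8_153 : AllT Q n8_153 := ⟨a9_153, a9_409⟩
theorem a8_154 : AllT Q n8_154 := ⟨a9_154, a9_410⟩
theorem a8_155 : AllT Q n8_155 := ⟨a9_155, a9_411⟩
theorem a8_156 : AllT Q n8_156 := ⟨a9_156, a9_412⟩
theorem a8_157 : AllT Q n8_157 := ⟨a9_157, a9_413⟩
theorem a8_158 : AllT Q n8_158 := ⟨a9_158, a9_414⟩
theorem a8_159 : AllT Q n8_159 := ⟨a9_159, a9_415⟩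
theorem a8_160 : AllT Q n8_160 := ⟨a9_160, a9_416⟩
theorem a8_161 : AllT Q n8_161 := ⟨a9_161, a9_417⟩
theorem a8_162 : AllT Q n8_162 := ⟨a9_162, a9_418⟩
theorem a8_163 : AllT Q n8_163 := ⟨a9_163, a9_419⟩
theorem a8_164 : AllT Q n8_164 := ⟨a9_164, a9_420⟩
theorem a8_165 : AllT Q n8_165 := ⟨a9_165, a9_421⟩
theorem a8_166 : AllT Q n8_166 := ⟨a9_166, a9_422⟩
theorem a8_167 : AllT Q n8_167 := ⟨a9_167, a9_423⟩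
theorem a8_168 : AllT Q n8_168 := ⟨a9_168, a9_424⟩
theorem a8_169 : AllT Q n8_169 := ⟨a9_169, a9_425⟩
theorem a8_170 : AllT Q n8_170 := ⟨a9_170, a9_426⟩
theorem a8_171 : AllT Q n8_171 := ⟨a9_171, a9_427⟩
theorem a8_172 : AllT Q n8_172 := ⟨a9_172, a9_428⟩
theorem a8_173 : AllT Q n8_173 := ⟨a9_173, a9_429⟩
theorem a8_174 : AllT Q n8_174 := ⟨a9_174, a9_430⟩
theorem a8_175 : AllT Q n8_175 := ⟨a9_175, a9_431⟩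
theorem a8_176 : AllT Q n8_176 := ⟨a9_176, a9_432⟩
theorem a8_177 : AllT Q n8_177 := ⟨a9_177, a9_433⟩
theorem a8_178 : AllT Q n8_178 := ⟨a9_178, a9_434⟩
theorem a8_179 : AllT Q n8_179 := ⟨a9_179, a9_435⟩
theorem a8_180 : AllT Q n8_180 := ⟨a9_180, a9_436⟩
theorem a8_181 : AllT Q n8_181 := ⟨a9_181, a9_437⟩
theorem a8_182 : AllT Q n8_182 := ⟨a9_182, a9_438⟩
theorem a8_183 : AllT Q n8_183 := ⟨a9_183, a9_439⟩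
theorem a8_184 : AllT Q n8_184 := ⟨a9_184, a9_440⟩
theorem a8_185 : AllT Q n8_185 := ⟨a9_185, a9_441⟩
theorem a8_186 : AllT Q n8_186 := ⟨a9_186, a9_442⟩
theorem a8_187 : AllT Q n8_187 := ⟨a9_187, a9_443⟩
theorem a8_188 : AllT Q n8_188 := ⟨a9_188, a9_444⟩
theorem a8_189 : AllT Q n8_189 := ⟨a9_189, a9_445⟩
theorem a8_190 : AllT Q n8_190 := ⟨a9_190, a9_446⟩
theorem a8_191 : AllT Q n8_191 := ⟨a9_191, a9_447⟩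
theorem a8_192 : AllT Q n8_192 := ⟨a9_192, a9_448⟩
theorem a8_193 : AllT Q n8_193 := ⟨a9_193, a9_449⟩
theorem a8_194 : AllT Q n8_194 := ⟨a9_194, a9_450⟩
theorem a8_195 : AllT Q n8_195 := ⟨a9_195, a9_451⟩
theorem a8_196 : AllT Q n8_196 := ⟨a9_196, a9_452⟩
theorem a8_197 : AllT Q n8_197 := ⟨a9_197, a9_453⟩
theorem a8_198 : AllT Q n8_198 := ⟨a9_198, a9_454⟩
theorem a8_199 : AllT Q n8_199 := ⟨a9_199, a9_455⟩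
theorem a8_200 : AllT Q n8_200 := ⟨a9_200, a9_456⟩
theorem a8_201 : AllT Q n8_201 := ⟨a9_201, a9_457⟩
theorem a8_202 : AllT Q n8_202 := ⟨a9_202, a9_458⟩
theorem a8_203 : AllT Q n8_203 := ⟨a9_203, a9_459⟩
theorem a8_204 : AllT Q n8_204 := ⟨a9_204, a9_460⟩
theorem a8_205 : AllT Q n8_205 := ⟨a9_205, a9_461⟩
theorem a8_206 : AllT Q n8_206 := ⟨a9_206, a9_462⟩
theorem a8_207 : AllT Q n8_207 := ⟨a9_207, a9_463⟩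
theorem a8_208 : AllT Q n8_208 := ⟨a9_208, a9_464⟩
theorem a8_209 : AllT Q n8_209 := ⟨a9_209, a9_465⟩
theorem a8_210 : AllT Q n8_210 := ⟨a9_210, a9_466⟩
theorem a8_211 : AllT Q n8_211 := ⟨a9_211, a9_467⟩
theorem a8_212 : AllT Q n8_212 := ⟨a9_212, a9_468⟩
theorem a8_213 : AllT Q n8_213 := ⟨a9_213, a9_469⟩
theorem a8_214 : AllT Q n8_214 := ⟨a9_214, a9_470⟩
theorem a8_215 : AllT Q n8_215 := ⟨a9_215, a9_471⟩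
theorem a8_216 : AllT Q n8_216 := ⟨a9_216, a9_472⟩
theorem a8_217 : AllT Q n8_217 := ⟨a9_217, a9_473⟩
theorem a8_218 : AllT Q n8_218 := ⟨a9_218, a9_474⟩
theorem a8_219 : AllT Q n8_219 := ⟨a9_219, a9_475⟩
theorem a8_220 : AllT Q n8_220 := ⟨a9_220, a9_476⟩
theorem a8_221 : AllT Q n8_221 := ⟨a9_221, a9_477⟩
theorem a8_222 : AllT Q n8_222 := ⟨a9_222, a9_478⟩
theorem a8_223 : AllT Q n8_223 := ⟨a9_223, a9_479⟩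
theorem a8_224 : AllT Q n8_224 := ⟨a9_224, a9_480⟩
theorem a8_225 : AllT Q n8_225 := ⟨a9_225, a9_481⟩
theorem a8_226 : AllT Q n8_226 := ⟨a9_226, a9_482⟩
theorem a8_227 : AllT Q n8_227 := ⟨a9_227, a9_483⟩
theorem a8_228 : AllT Q n8_228 := ⟨a9_228, a9_484⟩
theorem a8_229 : AllT Q n8_229 := ⟨a9_229, a9_485⟩
theorem a8_230 : AllT Q n8_230 := ⟨a9_230, a9_486⟩
theorem a8_231 : AllT Q n8_231 := ⟨a9_231, a9_487⟩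
theorem a8_232 : AllT Q n8_232 := ⟨a9_232, a9_488⟩
theorem a8_233 : AllT Q n8_233 := ⟨a9_233, a9_489⟩
theorem a8_234 : AllT Q n8_234 := ⟨a9_234, a9_490⟩
theorem a8_235 : AllT Q n8_235 := ⟨a9_235, a9_491⟩
theorem a8_236 : AllT Q n8_236 := ⟨a9_236, a9_492⟩
theorem a8_237 : AllT Q n8_237 := ⟨a9_237, a9_493⟩
theorem a8_238 : AllT Q n8_238 := ⟨a9_238, a9_494⟩
theorem a8_239 : AllT Q n8_239 := ⟨a9_239, a9_495⟩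
theorem a8_240 : AllT Q n8_240 := ⟨a9_240, a9_496⟩
theorem a8_241 : AllT Q n8_241 := ⟨a9_241, a9_497⟩
theorem a8_242 : AllT Q n8_242 := ⟨a9_242, a9_498⟩
theorem a8_243 : AllT Q n8_243 := ⟨a9_243, a9_499⟩
theorem a8_244 : AllT Q n8_244 := ⟨a9_244, a9_500⟩
theorem a8_245 : AllT Q n8_245 := ⟨a9_245, a9_501⟩
theorem a8_246 : AllT Q n8_246 := ⟨a9_246, a9_502⟩
theorem a8_247 : AllT Q n8_247 := ⟨a9_247, a9_503⟩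
theorem a8_248 : AllT Q n8_248 := ⟨a9_248, a9_504⟩
theorem a8_249 : AllT Q n8_249 := ⟨a9_249, a9_505⟩
theorem a8_250 : AllT Q n8_250 := ⟨a9_250, a9_506⟩
theorem a8_251 : AllT Q n8_251 := ⟨a9_251, a9_507⟩
theorem a8_252 : AllT Q n8_252 := ⟨a9_252, a9_508⟩
theorem a8_253 : AllT Q n8_253 := ⟨a9_253, a9_509⟩
theorem a8_254 : AllT Q n8_254 := ⟨a9_254, a9_510⟩
theorem a8_255 : AllT Q n8_255 := ⟨a9_255, a9_511⟩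
theorem a7_0 : AllT Q n7_0 := ⟨a8_0, a8_128⟩
theorem a7_1 : AllT Q n7_1 := ⟨a8_1, a8_129⟩
theorem a7_2 : AllT Q n7_2 := ⟨a8_2, a8_130⟩
theorem a7_3 : AllT Q n7_3 := ⟨a8_3, a8_131⟩
theorem a7_4 : AllT Q n7_4 := ⟨a8_4, a8_132⟩
theorem a7_5 : AllT Q n7_5 := ⟨a8_5, a8_133⟩
theorem a7_6 : AllT Q n7_6 := ⟨a8_6, a8_134⟩
theorem a7_7 : AllT Q n7_7 := ⟨a8_7, a8_135⟩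
theorem a7_8 : AllT Q n7_8 := ⟨a8_8, a8_136⟩
theorem a7_9 : AllT Q n7_9 := ⟨a8_9, a8_137⟩
theorem a7_10 : AllT Q n7_10 := ⟨a8_10, a8_138⟩
theorem a7_11 : AllT Q n7_11 := ⟨a8_11, a8_139⟩
theorem a7_12 : AllT Q n7_12 := ⟨a8_12, a8_140⟩
theorem a7_13 : AllT Q n7_13 := ⟨a8_13, a8_141⟩
theorem a7_14 : AllT Q n7_14 := ⟨a8_14, a8_142⟩
theorem a7_15 : AllT Q n7_15 := ⟨a8_15, a8_143⟩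
theorem a7_16 : AllT Q n7_16 := ⟨a8_16, a8_144⟩
theorem a7_17 : AllT Q n7_17 := ⟨a8_17, a8_145⟩
theorem a7_18 : AllT Q n7_18 := ⟨a8_18, a8_146⟩
theorem a7_19 : AllT Q n7_19 := ⟨a8_19, a8_147⟩
theorem a7_20 : AllT Q n7_20 := ⟨a8_20, a8_148⟩
theorem a7_21 : AllT Q n7_21 := ⟨a8_21, a8_149⟩
theorem a7_22 : AllT Q n7_22 := ⟨a8_22, a8_150⟩
theorem a7_23 : AllT Q n7_23 := ⟨a8_23, a8_151⟩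
theorem a7_24 : AllT Q n7_24 := ⟨a8_24, a8_152⟩
theorem a7_25 : AllT Q n7_25 := ⟨a8_25, a8_153⟩
theorem a7_26 : AllT Q n7_26 := ⟨a8_26, a8_154⟩
theorem a7_27 : AllT Q n7_27 := ⟨a8_27, a8_155⟩
theorem a7_28 : AllT Q n7_28 := ⟨a8_28, a8_156⟩
theorem a7_29 : AllT Q n7_29 := ⟨a8_29, a8_157⟩
theorem a7_30 : AllT Q n7_30 := ⟨a8_30, a8_158⟩
theorem a7_31 : AllT Q n7_31 := ⟨a8_31, a8_159⟩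
theorem a7_32 : AllT Q n7_32 := ⟨a8_32, a8_160⟩
theorem a7_33 : AllT Q n7_33 := ⟨a8_33, a8_161⟩
theorem a7_34 : AllT Q n7_34 := ⟨a8_34, a8_162⟩
theorem a7_35 : AllT Q n7_35 := ⟨a8_35, a8_163⟩
theorem a7_36 : AllT Q n7_36 := ⟨a8_36, a8_164⟩
theorem a7_37 : AllT Q n7_37 := ⟨a8_37, a8_165⟩
theorem a7_38 : AllT Q n7_38 := ⟨a8_38, a8_166⟩
theorem a7_39 : AllT Q n7_39 := ⟨a8_39, a8_167⟩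
theorem a7_40 : AllT Q n7_40 := ⟨a8_40, a8_168⟩
theorem a7_41 : AllT Q n7_41 := ⟨a8_41, a8_169⟩
theorem a7_42 : AllT Q n7_42 := ⟨a8_42, a8_170⟩
theorem a7_43 : AllT Q n7_43 := ⟨a8_43, a8_171⟩
theorem a7_44 : AllT Q n7_44 := ⟨a8_44, a8_172⟩
theorem a7_45 : AllT Q n7_45 := ⟨a8_45, a8_173⟩
theorem a7_46 : AllT Q n7_46 := ⟨a8_46, a8_174⟩
theorem a7_47 : AllT Q n7_47 := ⟨a8_47, a8_175⟩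
theorem a7_48 : AllT Q n7_48 := ⟨a8_48, a8_176⟩
theorem a7_49 : AllT Q n7_49 := ⟨a8_49, a8_177⟩
theorem a7_50 : AllT Q n7_50 := ⟨a8_50, a8_178⟩
theorem a7_51 : AllT Q n7_51 := ⟨a8_51, a8_179⟩
theorem a7_52 : AllT Q n7_52 := ⟨a8_52, a8_180⟩
theorem a7_53 : AllT Q n7_53 := ⟨a8_53, a8_181⟩
theorem a7_54 : AllT Q n7_54 := ⟨a8_54, a8_182⟩
theorem a7_55 : AllT Q n7_55 := ⟨a8_55, a8_183⟩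
theorem a7_56 : AllT Q n7_56 := ⟨a8_56, a8_184⟩
theorem a7_57 : AllT Q n7_57 := ⟨a8_57, a8_185⟩
theorem a7_58 : AllT Q n7_58 := ⟨a8_58, a8_186⟩
theorem a7_59 : AllT Q n7_59 := ⟨a8_59, a8_187⟩
theorem a7_60 : AllT Q n7_60 := ⟨a8_60, a8_188⟩
theorem a7_61 : AllT Q n7_61 := ⟨a8_61, a8_189⟩
theorem a7_62 : AllT Q n7_62 := ⟨a8_62, a8_190⟩
theorem a7_63 : AllT Q n7_63 := ⟨a8_63, a8_191⟩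
theorem a7_64 : AllT Q n7_64 := ⟨a8_64, a8_192⟩
theorem a7_65 : AllT Q n7_65 := ⟨a8_65, a8_193⟩
theorem a7_66 : AllT Q n7_66 := ⟨a8_66, a8_194⟩
theorem a7_67 : AllT Q n7_67 := ⟨a8_67, a8_195⟩
theorem a7_68 : AllT Q n7_68 := ⟨a8_68, a8_196⟩
theorem a7_69 : AllT Q n7_69 := ⟨a8_69, a8_197⟩
theorem a7_70 : AllT Q n7_70 := ⟨a8_70, a8_198⟩
theorem a7_71 : AllT Q n7_71 := ⟨a8_71, a8_199⟩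
theorem a7_72 : AllT Q n7_72 := ⟨a8_72, a8_200⟩
theorem a7_73 : AllT Q n7_73 := ⟨a8_73, a8_201⟩
theorem a7_74 : AllT Q n7_74 := ⟨a8_74, a8_202⟩
theorem a7_75 : AllT Q n7_75 := ⟨a8_75, a8_203⟩
theorem a7_76 : AllT Q n7_76 := ⟨a8_76, a8_204⟩
theorem a7_77 : AllT Q n7_77 := ⟨a8_77, a8_205⟩
theorem a7_78 : AllT Q n7_78 := ⟨a8_78, a8_206⟩
theorem a7_79 : AllT Q n7_79 := ⟨a8_79, a8_207⟩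
theorem a7_80 : AllT Q n7_80 := ⟨a8_80, a8_208⟩
theorem a7_81 : AllT Q n7_81 := ⟨a8_81, a8_209⟩
theorem a7_82 : AllT Q n7_82 := ⟨a8_82, a8_210⟩
theorem a7_83 : AllT Q n7_83 := ⟨a8_83, a8_211⟩
theorem a7_84 : AllT Q n7_84 := ⟨a8_84, a8_212⟩
theorem a7_85 : AllT Q n7_85 := ⟨a8_85, a8_213⟩
theorem a7_86 : AllT Q n7_86 := ⟨a8_86, a8_214⟩
theorem a7_87 : AllT Q n7_87 := ⟨a8_87, a8_215⟩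
theorem a7_88 : AllT Q n7_88 := ⟨a8_88, a8_216⟩
theorem a7_89 : AllT Q n7_89 := ⟨a8_89, a8_217⟩
theorem a7_90 : AllT Q n7_90 := ⟨a8_90, a8_218⟩
theorem a7_91 : AllT Q n7_91 := ⟨a8_91, a8_219⟩
theorem a7_92 : AllT Q n7_92 := ⟨a8_92, a8_220⟩
theorem a7_93 : AllT Q n7_93 := ⟨a8_93, a8_221⟩
theorem a7_94 : AllT Q n7_94 := ⟨a8_94, a8_222⟩
theorem a7_95 : AllT Q n7_95 := ⟨a8_95, a8_223⟩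
theorem a7_96 : AllT Q n7_96 := ⟨a8_96, a8_224⟩
theorem a7_97 : AllT Q n7_97 := ⟨a8_97, a8_225⟩
theorem a7_98 : AllT Q n7_98 := ⟨a8_98, a8_226⟩
theorem a7_99 : AllT Q n7_99 := ⟨a8_99, a8_227⟩
theorem a7_100 : AllT Q n7_100 := ⟨a8_100, a8_228⟩
theorem a7_101 : AllT Q n7_101 := ⟨a8_101, a8_229⟩
theorem a7_102 : AllT Q n7_102 := ⟨a8_102, a8_230⟩
theorem a7_103 : AllT Q n7_103 := ⟨a8_103, a8_231⟩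
theorem a7_104 : AllT Q n7_104 := ⟨a8_104, a8_232⟩
theorem a7_105 : AllT Q n7_105 := ⟨a8_105, a8_233⟩
theorem a7_106 : AllT Q n7_106 := ⟨a8_106, a8_234⟩
theorem a7_107 : AllT Q n7_107 := ⟨a8_107, a8_235⟩
theorem a7_108 : AllT Q n7_108 := ⟨a8_108, a8_236⟩
theorem a7_109 : AllT Q n7_109 := ⟨a8_109, a8_237⟩
theorem a7_110 : AllT Q n7_110 := ⟨a8_110, a8_238⟩
theorem a7_111 : AllT Q n7_111 := ⟨a8_111, a8_239⟩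
theorem a7_112 : AllT Q n7_112 := ⟨a8_112, a8_240⟩
theorem a7_113 : AllT Q n7_113 := ⟨a8_113, a8_241⟩
theorem a7_114 : AllT Q n7_114 := ⟨a8_114, a8_242⟩
theorem a7_115 : AllT Q n7_115 := ⟨a8_115, a8_243⟩
theorem a7_116 : AllT Q n7_116 := ⟨a8_116, a8_244⟩
theorem a7_117 : AllT Q n7_117 := ⟨a8_117, a8_245⟩
theorem a7_118 : AllT Q n7_118 := ⟨a8_118, a8_246⟩
theorem a7_119 : AllT Q n7_119 := ⟨a8_119, a8_247⟩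
theorem a7_120 : AllT Q n7_120 := ⟨a8_120, a8_248⟩
theorem a7_121 : AllT Q n7_121 := ⟨a8_121, a8_249⟩
theorem a7_122 : AllT Q n7_122 := ⟨a8_122, a8_250⟩
theorem a7_123 : AllT Q n7_123 := ⟨a8_123, a8_251⟩
theorem a7_124 : AllT Q n7_124 := ⟨a8_124, a8_252⟩
theorem a7_125 : AllT Q n7_125 := ⟨a8_125, a8_253⟩
theorem a7_126 : AllT Q n7_126 := ⟨a8_126, a8_254⟩
theorem a7_127 : AllT Q n7_127 := ⟨a8_127, a8_255⟩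
theorem a6_0 : AllT Q n6_0 := ⟨a7_0, a7_64⟩
theorem a6_1 : AllT Q n6_1 := ⟨a7_1, a7_65⟩
theorem a6_2 : AllT Q n6_2 := ⟨a7_2, a7_66⟩
theorem a6_3 : AllT Q n6_3 := ⟨a7_3, a7_67⟩
theorem a6_4 : AllT Q n6_4 := ⟨a7_4, a7_68⟩
theorem a6_5 : AllT Q n6_5 := ⟨a7_5, a7_69⟩
theorem a6_6 : AllT Q n6_6 := ⟨a7_6, a7_70⟩
theorem a6_7 : AllT Q n6_7 := ⟨a7_7, a7_71⟩
theorem a6_8 : AllT Q n6_8 := ⟨a7_8, a7_72⟩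
theorem a6_9 : AllT Q n6_9 := ⟨a7_9, a7_73⟩
theorem a6_10 : AllT Q n6_10 := ⟨a7_10, a7_74⟩
theorem a6_11 : AllT Q n6_11 := ⟨a7_11, a7_75⟩
theorem a6_12 : AllT Q n6_12 := ⟨a7_12, a7_76⟩
theorem a6_13 : AllT Q n6_13 := ⟨a7_13, a7_77⟩
theorem a6_14 : AllT Q n6_14 := ⟨a7_14, a7_78⟩
theorem a6_15 : AllT Q n6_15 := ⟨a7_15, a7_79⟩
theorem a6_16 : AllT Q n6_16 := ⟨a7_16, a7_80⟩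
theorem a6_17 : AllT Q n6_17 := ⟨a7_17, a7_81⟩
theorem a6_18 : AllT Q n6_18 := ⟨a7_18, a7_82⟩
theorem a6_19 : AllT Q n6_19 := ⟨a7_19, a7_83⟩
theorem a6_20 : AllT Q n6_20 := ⟨a7_20, a7_84⟩
theorem a6_21 : AllT Q n6_21 := ⟨a7_21, a7_85⟩
theorem a6_22 : AllT Q n6_22 := ⟨a7_22, a7_86⟩
theorem a6_23 : AllT Q n6_23 := ⟨a7_23, a7_87⟩
theorem a6_24 : AllT Q n6_24 := ⟨a7_24, a7_88⟩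
theorem a6_25 : AllT Q n6_25 := ⟨a7_25, a7_89⟩
theorem a6_26 : AllT Q n6_26 := ⟨a7_26, a7_90⟩
theorem a6_27 : AllT Q n6_27 := ⟨a7_27, a7_91⟩
theorem a6_28 : AllT Q n6_28 := ⟨a7_28, a7_92⟩
theorem a6_29 : AllT Q n6_29 := ⟨a7_29, a7_93⟩
theorem a6_30 : AllT Q n6_30 := ⟨a7_30, a7_94⟩
theorem a6_31 : AllT Q n6_31 := ⟨a7_31, a7_95⟩
theorem a6_32 : AllT Q n6_32 := ⟨a7_32, a7_96⟩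
theorem a6_33 : AllT Q n6_33 := ⟨a7_33, a7_97⟩
theorem a6_34 : AllT Q n6_34 := ⟨a7_34, a7_98⟩
theorem a6_35 : AllT Q n6_35 := ⟨a7_35, a7_99⟩
theorem a6_36 : AllT Q n6_36 := ⟨a7_36, a7_100⟩
theorem a6_37 : AllT Q n6_37 := ⟨a7_37, a7_101⟩
theorem a6_38 : AllT Q n6_38 := ⟨a7_38, a7_102⟩
theorem a6_39 : AllT Q n6_39 := ⟨a7_39, a7_103⟩
theorem a6_40 : AllT Q n6_40 := ⟨a7_40, a7_104⟩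
theorem a6_41 : AllT Q n6_41 := ⟨a7_41, a7_105⟩
theorem a6_42 : AllT Q n6_42 := ⟨a7_42, a7_106⟩
theorem a6_43 : AllT Q n6_43 := ⟨a7_43, a7_107⟩
theorem a6_44 : AllT Q n6_44 := ⟨a7_44, a7_108⟩
theorem a6_45 : AllT Q n6_45 := ⟨a7_45, a7_109⟩
theorem a6_46 : AllT Q n6_46 := ⟨a7_46, a7_110⟩
theorem a6_47 : AllT Q n6_47 := ⟨a7_47, a7_111⟩
theorem a6_48 : AllT Q n6_48 := ⟨a7_48, a7_112⟩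
theorem a6_49 : AllT Q n6_49 := ⟨a7_49, a7_113⟩
theorem a6_50 : AllT Q n6_50 := ⟨a7_50, a7_114⟩
theorem a6_51 : AllT Q n6_51 := ⟨a7_51, a7_115⟩
theorem a6_52 : AllT Q n6_52 := ⟨a7_52, a7_116⟩
theorem a6_53 : AllT Q n6_53 := ⟨a7_53, a7_117⟩
theorem a6_54 : AllT Q n6_54 := ⟨a7_54, a7_118⟩
theorem a6_55 : AllT Q n6_55 := ⟨a7_55, a7_119⟩
theorem a6_56 : AllT Q n6_56 := ⟨a7_56, a7_120⟩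
theorem a6_57 : AllT Q n6_57 := ⟨a7_57, a7_121⟩
theorem a6_58 : AllT Q n6_58 := ⟨a7_58, a7_122⟩
theorem a6_59 : AllT Q n6_59 := ⟨a7_59, a7_123⟩
theorem a6_60 : AllT Q n6_60 := ⟨a7_60, a7_124⟩
theorem a6_61 : AllT Q n6_61 := ⟨a7_61, a7_125⟩
theorem a6_62 : AllT Q n6_62 := ⟨a7_62, a7_126⟩
theorem a6_63 : AllT Q n6_63 := ⟨a7_63, a7_127⟩
theorem a5_0 : AllT Q n5_0 := ⟨a6_0, a6_32⟩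
theorem a5_1 : AllT Q n5_1 := ⟨a6_1, a6_33⟩
theorem a5_2 : AllT Q n5_2 := ⟨a6_2, a6_34⟩
theorem a5_3 : AllT Q n5_3 := ⟨a6_3, a6_35⟩
theorem a5_4 : AllT Q n5_4 := ⟨a6_4, a6_36⟩
theorem a5_5 : AllT Q n5_5 := ⟨a6_5, a6_37⟩
theorem a5_6 : AllT Q n5_6 := ⟨a6_6, a6_38⟩
theorem a5_7 : AllT Q n5_7 := ⟨a6_7, a6_39⟩
theorem a5_8 : AllT Q n5_8 := ⟨a6_8, a6_40⟩
theorem a5_9 : AllT Q n5_9 := ⟨a6_9, a6_41⟩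
theorem a5_10 : AllT Q n5_10 := ⟨a6_10, a6_42⟩
theorem a5_11 : AllT Q n5_11 := ⟨a6_11, a6_43⟩
theorem a5_12 : AllT Q n5_12 := ⟨a6_12, a6_44⟩
theorem a5_13 : AllT Q n5_13 := ⟨a6_13, a6_45⟩
theorem a5_14 : AllT Q n5_14 := ⟨a6_14, a6_46⟩
theorem a5_15 : AllT Q n5_15 := ⟨a6_15, a6_47⟩
theorem a5_16 : AllT Q n5_16 := ⟨a6_16, a6_48⟩
theorem a5_17 : AllT Q n5_17 := ⟨a6_17, a6_49⟩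
theorem a5_18 : AllT Q n5_18 := ⟨a6_18, a6_50⟩
theorem a5_19 : AllT Q n5_19 := ⟨a6_19, a6_51⟩
theorem a5_20 : AllT Q n5_20 := ⟨a6_20, a6_52⟩
theorem a5_21 : AllT Q n5_21 := ⟨a6_21, a6_53⟩
theorem a5_22 : AllT Q n5_22 := ⟨a6_22, a6_54⟩
theorem a5_23 : AllT Q n5_23 := ⟨a6_23, a6_55⟩
theorem a5_24 : AllT Q n5_24 := ⟨a6_24, a6_56⟩
theorem a5_25 : AllT Q n5_25 := ⟨a6_25, a6_57⟩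
theorem a5_26 : AllT Q n5_26 := ⟨a6_26, a6_58⟩
theorem a5_27 : AllT Q n5_27 := ⟨a6_27, a6_59⟩
theorem a5_28 : AllT Q n5_28 := ⟨a6_28, a6_60⟩
theorem a5_29 : AllT Q n5_29 := ⟨a6_29, a6_61⟩
theorem a5_30 : AllT Q n5_30 := ⟨a6_30, a6_62⟩
theorem a5_31 : AllT Q n5_31 := ⟨a6_31, a6_63⟩
theorem a4_0 : AllT Q n4_0 := ⟨a5_0, a5_16⟩
theorem a4_1 : AllT Q n4_1 := ⟨a5_1, a5_17⟩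
theorem a4_2 : AllT Q n4_2 := ⟨a5_2, a5_18⟩
theorem a4_3 : AllT Q n4_3 := ⟨a5_3, a5_19⟩
theorem a4_4 : AllT Q n4_4 := ⟨a5_4, a5_20⟩
theorem a4_5 : AllT Q n4_5 := ⟨a5_5, a5_21⟩
theorem a4_6 : AllT Q n4_6 := ⟨a5_6, a5_22⟩
theorem a4_7 : AllT Q n4_7 := ⟨a5_7, a5_23⟩
theorem a4_8 : AllT Q n4_8 := ⟨a5_8, a5_24⟩
theorem a4_9 : AllT Q n4_9 := ⟨a5_9, a5_25⟩
theorem a4_10 : AllT Q n4_10 := ⟨a5_10, a5_26⟩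
theorem a4_11 : AllT Q n4_11 := ⟨a5_11, a5_27⟩
theorem a4_12 : AllT Q n4_12 := ⟨a5_12, a5_28⟩
theorem a4_13 : AllT Q n4_13 := ⟨a5_13, a5_29⟩
theorem a4_14 : AllT Q n4_14 := ⟨a5_14, a5_30⟩
theorem a4_15 : AllT Q n4_15 := ⟨a5_15, a5_31⟩
theorem a3_0 : AllT Q n3_0 := ⟨a4_0, a4_8⟩
theorem a3_1 : AllT Q n3_1 := ⟨a4_1, a4_9⟩
theorem a3_2 : AllT Q n3_2 := ⟨a4_2, a4_10⟩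
theorem a3_3 : AllT Q n3_3 := ⟨a4_3, a4_11⟩
theorem a3_4 : AllT Q n3_4 := ⟨a4_4, a4_12⟩
theorem a3_5 : AllT Q n3_5 := ⟨a4_5, a4_13⟩
theorem a3_6 : AllT Q n3_6 := ⟨a4_6, a4_14⟩
theorem a3_7 : AllT Q n3_7 := ⟨a4_7, a4_15⟩
theorem a2_0 : AllT Q n2_0 := ⟨a3_0, a3_4⟩
theorem a2_1 : AllT Q n2_1 := ⟨a3_1, a3_5⟩
theorem a2_2 : AllT Q n2_2 := ⟨a3_2, a3_6⟩
theorem a2_3 : AllT Q n2_3 := ⟨a3_3, a3_7⟩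
theorem a1_0 : AllT Q n1_0 := ⟨a2_0, a2_2⟩
theorem a1_1 : AllT Q n1_1 := ⟨a2_1, a2_3⟩
theorem a0_0 : AllT Q n0_0 := ⟨a1_0, a1_1⟩

theorem dflt_eq : dflt = mkSwR 6 0 1 := by decide +kernel

theorem env_ok : env.OK 6 dflt := by
  rw [env_eq, dflt_eq]
  exact mkEnv_ok (by norm_num)

theorem all_ok (i : ℕ) : ∃ c, chk dflt env tb 6 (tb.get i) c = true :=
  AllT.get (Q := Q) (t := tb) a0_0 i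

theorem flow {V E : Type} [Fintype V] [DecidableEq V] [Fintype E] [DecidableEq E]
    (src dst : E → V) (hb : ∀ Y, (dlt src dst Y).card ≠ 1) (hPD : HasPD 7 src dst) :
    NZF src dst :=
  flow_of_table env_ok (by norm_num) all_ok (by decide +kernel) (by decide +kernel)
    (by decide +kernel) (by decide +kernel) src dst hb hPD

end Pool.Agent.TH497.PW.D6
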